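import Pool.Agent.Lib.MP_1185bc_an.Stab

/-!
# MP_1185bc_an: chains of one-sided multiplications
-/

set_option autoImplicit false

open Filter Topology

namespace Pool.Agent.Lib.MP_1185bc_an

/-- A homomorphism as a linear map. -/
def toLin {B A : Type*} [NonUnitalNormedRing B] [NormedSpace ℂ B]
    [NonUnitalNormedRing A] [NormedSpace ℂ A] (θ : B →ₙₐ[ℂ] A) : B →ₗ[ℂ] A where
  toFun := θ
  map_add' := map_add θ
  map_smul' := map_smul θ

section
variable {B A : Type*}
  [NonUnitalNormedRing B] [NormedSpace ℂ B] [IsScalarTower ℂ B B] [SMulCommClass ℂ B B]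
  [NonUnitalNormedRing A] [NormedSpace ℂ A] [IsScalarTower ℂ A A] [SMulCommClass ℂ A A]

theorem toLin_apply (θ : B →ₙₐ[ℂ] A) (x : B) : toLin θ x = θ x := rfl

/-- The separating space of an epimorphism is a left ideal. -/
theorem mul_mem_sep (θ : B →ₙₐ[ℂ] A) (hθ : Function.Surjective θ) (a : A) {s : A}
    (hs : s ∈ sep (toLin θ)) : a * s ∈ sep (toLin θ) := by
  obtain ⟨b, rfl⟩ := hθ a
  obtain ⟨x, hx, hx'⟩ := hs
  refine ⟨fun n => b * x n, ?_, ?_⟩
  · have := (tendsto_const_nhds (x := b)).mul hx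
    rwa [mul_zero] at this
  · have := (tendsto_const_nhds (x := θ b)).mul hx'
    refine this.congr fun n => ?_
    rw [toLin_apply, toLin_apply, map_mul]

/-- The separating space of an epimorphism is a right ideal. -/
theorem mem_sep_mul (θ : B →ₙₐ[ℂ] A) (hθ : Function.Surjective θ) (a : A) {s : A}
    (hs : s ∈ sep (toLin θ)) : s * a ∈ sep (toLin θ) := by
  obtain ⟨b, rfl⟩ := hθ a
  obtain ⟨x, hx, hx'⟩ := hs
  refine ⟨fun n => x n * b, ?_, ?_⟩
  · have := hx.mul (tendsto_const_nhds (x := b))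
    rwa [zero_mul] at this
  · have := hx'.mul (tendsto_const_nhds (x := θ b))
    refine this.congr fun n => ?_
    rw [toLin_apply, toLin_apply, map_mul]

theorem closedIdeal_sep (θ : B →ₙₐ[ℂ] A) (hθ : Function.Surjective θ) :
    ClosedIdeal (sep (toLin θ)) :=
  ⟨isClosed_sep _, fun a _ hx => ⟨mul_mem_sep θ hθ a hx, mem_sep_mul θ hθ a hx⟩⟩

variable [CompleteSpace B] [CompleteSpace A]

/-- Chains of left multiplications. -/
theorem chain_left (θ : B →ₙₐ[ℂ] A) (hθ : Function.Surjective θ) (G : A → Prop)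
    (hG : ∀ p, G p → ∃ a : A, ∃ φ : A →L[ℂ] ℂ, G (p * a) ∧
      (∀ s ∈ sep (toLin θ), φ (p * a * s) = 0) ∧ ∃ s ∈ sep (toLin θ), φ (p * s) ≠ 0)
    (p : A) : ¬ G p := by
  intro hp
  choose! α φ h1 h2 h3 using hG
  let P : ℕ → A := fun n => Nat.rec p (fun _ q => q * α q) n
  have hP0 : P 0 = p := rfl
  have hPs : ∀ n, P (n + 1) = P n * α (P n) := fun n => rfl
  have hGP : ∀ n, G (P n) := by
    intro n
    induction n with
    | zero => exact hp
    | succ n ih => rw [hPs]; exact h1 _ ih
  choose c hc using fun n => hθ (α (P n))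
  have hprod : ∀ n y, p * opProd (fun n => ContinuousLinearMap.mul ℂ A (α (P n))) n y =
      P n * y := by
    intro n
    induction n with
    | zero => intro y; rfl
    | succ n ih =>
      intro y
      rw [opProd_succ_apply, ih, hPs, ContinuousLinearMap.mul_apply', mul_assoc]
  refine stability (toLin θ) (fun n => ContinuousLinearMap.mul ℂ B (c n))
    (fun n => ContinuousLinearMap.mul ℂ A (α (P n))) (fun n x => ?_)
    (fun n => (φ (P n)).comp (ContinuousLinearMap.mul ℂ A p)) (fun n s hs => ?_) (fun n => ?_)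
  · rw [ContinuousLinearMap.mul_apply', ContinuousLinearMap.mul_apply', toLin_apply, toLin_apply,
      map_mul, hc]
  · rw [ContinuousLinearMap.comp_apply, ContinuousLinearMap.mul_apply', hprod, hPs]
    exact h2 _ (hGP n) s hs
  · obtain ⟨s, hs, hs'⟩ := h3 _ (hGP n)
    refine ⟨s, hs, ?_⟩
    rwa [ContinuousLinearMap.comp_apply, ContinuousLinearMap.mul_apply', hprod]

/-- Chains of right multiplications. -/
theorem chain_right (θ : B →ₙₐ[ℂ] A) (hθ : Function.Surjective θ) (G : A → Prop)
    (hG : ∀ p, G p → ∃ a : A, ∃ φ : A →L[ℂ] ℂ, G (a * p) ∧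
      (∀ s ∈ sep (toLin θ), φ (s * (a * p)) = 0) ∧ ∃ s ∈ sep (toLin θ), φ (s * p) ≠ 0)
    (p : A) : ¬ G p := by
  intro hp
  choose! α φ h1 h2 h3 using hG
  let P : ℕ → A := fun n => Nat.rec p (fun _ q => α q * q) n
  have hP0 : P 0 = p := rfl
  have hPs : ∀ n, P (n + 1) = α (P n) * P n := fun n => rfl
  have hGP : ∀ n, G (P n) := by
    intro n
    induction n with
    | zero => exact hp
    | succ n ih => rw [hPs]; exact h1 _ ih
  choose c hc using fun n => hθ (α (P n))
  have hprod : ∀ n y, opProd (fun n => (ContinuousLinearMap.mul ℂ A).flip (α (P n))) n y * p =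
      y * P n := by
    intro n
    induction n with
    | zero => intro y; rfl
    | succ n ih =>
      intro y
      rw [opProd_succ_apply, ih, hPs, ContinuousLinearMap.flip_apply,
        ContinuousLinearMap.mul_apply', mul_assoc]
  refine stability (toLin θ) (fun n => (ContinuousLinearMap.mul ℂ B).flip (c n))
    (fun n => (ContinuousLinearMap.mul ℂ A).flip (α (P n))) (fun n x => ?_)
    (fun n => (φ (P n)).comp ((ContinuousLinearMap.mul ℂ A).flip p)) (fun n s hs => ?_)
    (fun n => ?_)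
  · rw [ContinuousLinearMap.flip_apply, ContinuousLinearMap.flip_apply,
      ContinuousLinearMap.mul_apply', ContinuousLinearMap.mul_apply', toLin_apply, toLin_apply,
      map_mul, hc]
  · rw [ContinuousLinearMap.comp_apply, ContinuousLinearMap.flip_apply,
      ContinuousLinearMap.mul_apply', hprod, hPs]
    exact h2 _ (hGP n) s hs
  · obtain ⟨s, hs, hs'⟩ := h3 _ (hGP n)
    refine ⟨s, hs, ?_⟩
    rwa [ContinuousLinearMap.comp_apply, ContinuousLinearMap.flip_apply,
      ContinuousLinearMap.mul_apply', hprod]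

end

/-- Hahn-Banach: a point outside a closed subspace. -/
theorem exists_functional {A : Type*} [NormedAddCommGroup A] [NormedSpace ℂ A]
    (W : Submodule ℂ A) (x : A) (hx : x ∉ closure (W : Set A)) :
    ∃ φ : A →L[ℂ] ℂ, (∀ w ∈ W, φ w = 0) ∧ φ x ≠ 0 := by
  let W' := W.topologicalClosure
  have hW' : IsClosed (W' : Set A) := W.isClosed_topologicalClosure
  have hx' : (W'.mkQL x : A ⧸ W') ≠ 0 := by
    intro h
    apply hx
    have h1 : x ∈ W' := (Submodule.Quotient.mk_eq_zero W').1 h
    exact h1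
  obtain ⟨ψ, hψ⟩ := SeparatingDual.exists_ne_zero (R := ℂ) hx'
  refine ⟨ψ.comp W'.mkQL, fun w hw => ?_, hψ⟩
  have h1 : W'.mkQL w = 0 := (Submodule.Quotient.mk_eq_zero W').2 (W.le_topologicalClosure hw)
  rw [ContinuousLinearMap.comp_apply, h1, map_zero]

end Pool.Agent.Lib.MP_1185bc_an
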