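import Mathlib

/-!
# MP_1185bc_an: definitions

A complex Banach algebra, not assumed commutative or unital, is a type `A` with
`[NonUnitalNormedRing A] [NormedSpace ℂ A] [IsScalarTower ℂ A A] [SMulCommClass ℂ A A]
[CompleteSpace A]`.
-/

set_option autoImplicit false

open Filter Topology

namespace Pool.Agent.Lib.MP_1185bc_an

/-- `A` is semiprime: `a A a = 0` implies `a = 0`. -/
def IsSemiprime (A : Type*) [NonUnitalRing A] : Prop :=
  ∀ a : A, (∀ x, a * x * a = 0) → a = 0

/-- `A` is prime: `a A b = 0` implies `a = 0` or `b = 0`. -/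
def IsPrimeAlg (A : Type*) [NonUnitalRing A] : Prop :=
  ∀ a b : A, (∀ x, a * x * b = 0) → a = 0 ∨ b = 0

/-- `A` has no zero divisors. -/
def NoZeroDiv (A : Type*) [NonUnitalRing A] : Prop :=
  ∀ a b : A, a * b = 0 → a = 0 ∨ b = 0

/-- `pw x n` is the power `x ^ (n + 1)` (the algebra need not have a unit). -/
def pw {A : Type*} [Mul A] (x : A) : ℕ → A
  | 0 => x
  | n + 1 => pw x n * x

/-- `x` is quasinilpotent: the `n`-th root of the norm of `x ^ n` tends to `0`. -/
def QuasiNil {A : Type*} [NonUnitalNormedRing A] (x : A) : Prop :=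
  Tendsto (fun n : ℕ => ‖pw x n‖ ^ (1 / ((n : ℝ) + 1))) atTop (𝓝 0)

/-- A closed two-sided ideal. -/
def ClosedIdeal {A : Type*} [NonUnitalNormedRing A] [NormedSpace ℂ A]
    (I : Submodule ℂ A) : Prop :=
  IsClosed (I : Set A) ∧ ∀ a : A, ∀ x ∈ I, a * x ∈ I ∧ x * a ∈ I

/-- The special Banach algebras `R` of the theorem: `R` is nonzero, without zero divisors,
radical (all elements are quasinilpotent), satisfies `u R ⊆ closure (u a R)` and
`R u ⊆ closure (R a u)` for all nonzero `u`, `a`, and `x ↦ a x b` is not a compact operator for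
any nonzero `a`, `b`. -/
def Special (R : Type*) [NonUnitalNormedRing R] [NormedSpace ℂ R] : Prop :=
  (∃ x : R, x ≠ 0) ∧ NoZeroDiv R ∧ (∀ x : R, QuasiNil x) ∧
  (∀ u a : R, u ≠ 0 → a ≠ 0 → ∀ x : R,
      u * x ∈ closure (Set.range fun y => u * a * y) ∧
      x * u ∈ closure (Set.range fun y => y * a * u)) ∧
  ∀ a b : R, a ≠ 0 → b ≠ 0 → ¬ IsCompactOperator (fun x : R => a * x * b)

/-- Every element of `A` is the limit of `θ (x n)` for some sequence `x n → 0` in `B` (the
separating space of `θ` is `A`). -/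
def Wild {B A : Type*} [NonUnitalNormedRing B] [NormedSpace ℂ B]
    [NonUnitalNormedRing A] [NormedSpace ℂ A] (θ : B →ₙₐ[ℂ] A) : Prop :=
  ∀ y : A, ∃ x : ℕ → B, Tendsto x atTop (𝓝 0) ∧ Tendsto (fun n => θ (x n)) atTop (𝓝 y)

/-- Q1: every epimorphism from a Banach algebra onto a semiprime Banach algebra is continuous. -/
def AllSemiprime.{u} : Prop :=
  ∀ (B A : Type u)
    [NonUnitalNormedRing B] [NormedSpace ℂ B] [IsScalarTower ℂ B B] [SMulCommClass ℂ B B]
    [CompleteSpace B]
    [NonUnitalNormedRing A] [NormedSpace ℂ A] [IsScalarTower ℂ A A] [SMulCommClass ℂ A A]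
    [CompleteSpace A],
    IsSemiprime A → ∀ θ : B →ₙₐ[ℂ] A, Function.Surjective θ → Continuous θ

/-- Q2: every epimorphism from a Banach algebra onto a prime Banach algebra is continuous. -/
def AllPrime.{u} : Prop :=
  ∀ (B A : Type u)
    [NonUnitalNormedRing B] [NormedSpace ℂ B] [IsScalarTower ℂ B B] [SMulCommClass ℂ B B]
    [CompleteSpace B]
    [NonUnitalNormedRing A] [NormedSpace ℂ A] [IsScalarTower ℂ A A] [SMulCommClass ℂ A A]
    [CompleteSpace A],
    IsPrimeAlg A → ∀ θ : B →ₙₐ[ℂ] A, Function.Surjective θ → Continuous θ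

/-- The special case: no epimorphism from a Banach algebra onto a special Banach algebra is
wild. -/
def NoWildSpecial.{u} : Prop :=
  ∀ (B A : Type u)
    [NonUnitalNormedRing B] [NormedSpace ℂ B] [IsScalarTower ℂ B B] [SMulCommClass ℂ B B]
    [CompleteSpace B]
    [NonUnitalNormedRing A] [NormedSpace ℂ A] [IsScalarTower ℂ A A] [SMulCommClass ℂ A A]
    [CompleteSpace A],
    Special A → ∀ θ : B →ₙₐ[ℂ] A, Function.Surjective θ → ¬ Wild θ

/-- `J` is a minimal closed ideal of `A`: a nonzero closed two-sided ideal which contains no closed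
two-sided ideal of `A` except `0` and `J`. -/
def MinimalClosedIdeal {A : Type*} [NonUnitalNormedRing A] [NormedSpace ℂ A]
    (J : Submodule ℂ A) : Prop :=
  ClosedIdeal J ∧ J ≠ ⊥ ∧ ∀ K : Submodule ℂ A, ClosedIdeal K → K ≤ J → K = ⊥ ∨ K = J

end Pool.Agent.Lib.MP_1185bc_an
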