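import Pool.Agent.Lib.MP_1185bc_an.Defs

/-!
# MP_1185bc_an: the local algebra of a Banach algebra at an element
-/

set_option autoImplicit false

open Filter Topology

namespace Pool.Agent.Lib.MP_1185bc_an

universe u

/-- The local algebra of `A` at `p`: the Banach space `A` with the product `x p y`. -/
def Loc (A : Type u) [NonUnitalNormedRing A] (p : A) (_hp : ‖p‖ ≤ 1) : Type u := A

section
variable (A : Type u) [NonUnitalNormedRing A] [NormedSpace ℂ A] [IsScalarTower ℂ A A]
  [SMulCommClass ℂ A A] (p : A) (hp : ‖p‖ ≤ 1)

@[reducible] noncomputable def locGroup : NormedAddCommGroup (Loc A p hp) :=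
  inferInstanceAs (NormedAddCommGroup A)

@[reducible] noncomputable def locRing : NonUnitalNormedRing (Loc A p hp) :=
  { locGroup A p hp with
    mul := fun x y => ((show A from x) * p * (show A from y) : A)
    left_distrib := fun x y z => mul_add ((show A from x) * p) (show A from y) (show A from z)
    right_distrib := fun x y z => by
      change ((show A from x) + (show A from y)) * p * (show A from z) = _
      rw [add_mul, add_mul]
      rfl
    zero_mul := fun x => by
      change (0 : A) * p * (show A from x) = 0
      rw [zero_mul, zero_mul]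
    mul_zero := fun x => by
      change (show A from x) * p * (0 : A) = 0
      rw [mul_zero]
    mul_assoc := fun x y z => by
      change (show A from x) * p * (show A from y) * p * (show A from z) =
        (show A from x) * p * ((show A from y) * p * (show A from z))
      simp only [mul_assoc]
    norm_mul_le := fun x y => by
      change ‖(show A from x) * p * (show A from y)‖ ≤ ‖(show A from x)‖ * ‖(show A from y)‖
      calc ‖(show A from x) * p * (show A from y)‖
          ≤ ‖(show A from x) * p‖ * ‖(show A from y)‖ := norm_mul_le _ _
        _ ≤ ‖(show A from x)‖ * ‖p‖ * ‖(show A from y)‖ := by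
            gcongr
            exact norm_mul_le _ _
        _ ≤ ‖(show A from x)‖ * 1 * ‖(show A from y)‖ := by gcongr
        _ = ‖(show A from x)‖ * ‖(show A from y)‖ := by rw [mul_one] }

end

/-- The local algebra, packaged as an existence statement. -/
theorem exists_loc (A : Type u)
    [NonUnitalNormedRing A] [NormedSpace ℂ A] [IsScalarTower ℂ A A] [SMulCommClass ℂ A A]
    [CompleteSpace A] (p : A) (hp : ‖p‖ ≤ 1) :
    ∃ (L : Type u) (_ : NonUnitalNormedRing L) (_ : NormedSpace ℂ L) (_ : IsScalarTower ℂ L L)
      (_ : SMulCommClass ℂ L L) (_ : CompleteSpace L) (e : A ≃ₗᵢ[ℂ] L),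
      ∀ x y : A, e (x * p * y) = e x * e y := by
  let _ : NonUnitalNormedRing (Loc A p hp) := locRing A p hp
  let _ : NormedSpace ℂ (Loc A p hp) := inferInstanceAs (NormedSpace ℂ A)
  have h1 : IsScalarTower ℂ (Loc A p hp) (Loc A p hp) := ⟨fun c x y => by
    change (c • (show A from x)) * p * (show A from y) =
      c • ((show A from x) * p * (show A from y))
    rw [smul_mul_assoc, smul_mul_assoc]⟩
  have h2 : SMulCommClass ℂ (Loc A p hp) (Loc A p hp) := ⟨fun c x y => by
    change c • ((show A from x) * p * (show A from y)) =
      (show A from x) * p * (c • (show A from y))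
    rw [mul_smul_comm]⟩
  have h3 : CompleteSpace (Loc A p hp) := inferInstanceAs (CompleteSpace A)
  refine ⟨Loc A p hp, inferInstance, inferInstance, h1, h2, h3, LinearIsometryEquiv.refl ℂ A, ?_⟩
  intro x y
  rfl

end Pool.Agent.Lib.MP_1185bc_an
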