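import Pool.Agent.Lib.MP_1185bc_an.Rad3

/-!
# MP_1185bc_an: no compact elements
-/

set_option autoImplicit false

open Filter Topology

namespace Pool.Agent.Lib.MP_1185bc_an

/-- Powers of quasinilpotent elements. -/
theorem QuasiNil.eventually_le {A : Type*} [NonUnitalNormedRing A] {x : A} (h : QuasiNil x)
    {ε : ℝ} (hε : 0 < ε) : ∀ᶠ n : ℕ in atTop, ‖pw x n‖ ≤ ε ^ (n + 1) := by
  have h1 : ∀ᶠ n : ℕ in atTop, ‖pw x n‖ ^ (1 / ((n : ℝ) + 1)) < ε :=
    h.eventually (gt_mem_nhds hε)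
  filter_upwards [h1] with n h1
  have h5 : (‖pw x n‖ ^ (1 / ((n : ℝ) + 1))) ^ (n + 1) = ‖pw x n‖ := by
    rw [← Real.rpow_natCast, ← Real.rpow_mul (norm_nonneg _)]
    push_cast
    rw [one_div_mul_cancel (by positivity), Real.rpow_one]
  rw [← h5]
  exact pow_le_pow_left₀ (by positivity) h1.le _

theorem mul_pw {A : Type*} [NonUnitalNormedRing A] (a : A) (n : ℕ) :
    a * pw a n = pw a (n + 1) := by
  induction n with
  | zero => rfl
  | succ n ih =>
    change a * (pw a n * a) = pw a (n + 1) * a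
    rw [← mul_assoc, ih]

/-- The operator `x ↦ a x b`. -/
noncomputable def mulLR {R : Type*} [NonUnitalNormedRing R] [NormedSpace ℂ R]
    [IsScalarTower ℂ R R] [SMulCommClass ℂ R R] (a b : R) : R →L[ℂ] R :=
  ((ContinuousLinearMap.mul ℂ R).flip b).comp (ContinuousLinearMap.mul ℂ R a)

theorem mulLR_apply {R : Type*} [NonUnitalNormedRing R] [NormedSpace ℂ R]
    [IsScalarTower ℂ R R] [SMulCommClass ℂ R R] (a b x : R) : mulLR a b x = a * x * b := rfl

/-- If `R` has no zero divisors, `a` is quasinilpotent and `u M ⊆ closure (u v M)` for all nonzero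
`u`, `v`, then `x ↦ a x b` is not compact. -/
theorem not_compact {R : Type*} [NonUnitalNormedRing R] [NormedSpace ℂ R]
    [IsScalarTower ℂ R R] [SMulCommClass ℂ R R] (hR : NoZeroDiv R) (M : Set R)
    (hM : ∃ m ∈ M, m ≠ 0)
    (hL : ∀ u v : R, u ≠ 0 → v ≠ 0 → ∀ m ∈ M, u * m ∈ closure ((fun x => u * v * x) '' M))
    (a b : R) (ha : a ≠ 0) (hb : b ≠ 0) (hq : QuasiNil a) :
    ¬ IsCompactOperator (fun x : R => a * x * b) := by
  intro hT
  have hT' : IsCompactOperator (mulLR a b) := hT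
  obtain ⟨m₀, hm₀, hm₀'⟩ := hM
  obtain ⟨T, hTdef⟩ : ∃ T, T = mulLR a b := ⟨_, rfl⟩
  rw [← hTdef] at hT'
  have hTa : ∀ x, T x = a * x * b := fun x => by rw [hTdef, mulLR_apply]
  obtain ⟨v₀, hv₀⟩ : ∃ v₀, v₀ = a * m₀ := ⟨_, rfl⟩
  have hv₀0 : v₀ ≠ 0 := by
    rw [hv₀]
    intro h
    rcases hR _ _ h with h | h
    · exact ha h
    · exact hm₀' h
  have hTv₀ : T v₀ ≠ 0 := by
    rw [hTa]
    intro h
    rcases hR _ _ h with h | h
    · rcases hR _ _ h with h | h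
      · exact ha h
      · exact hv₀0 h
    · exact hb h
  obtain ⟨δ, hδ⟩ : ∃ δ, δ = ‖T v₀‖ / 2 := ⟨_, rfl⟩
  have hδ0 : 0 < δ := by
    rw [hδ]
    have := norm_pos_iff.2 hTv₀
    linarith
  obtain ⟨r, hr⟩ : ∃ r, r = δ / (‖T‖ + 1) := ⟨_, rfl⟩
  have hr0 : 0 < r := by
    rw [hr]
    positivity
  have hrT : ‖T‖ * r ≤ δ := by
    rw [hr, ← mul_div_assoc, div_le_iff₀ (by positivity)]
    nlinarith [norm_nonneg T]
  obtain ⟨K, hK⟩ : ∃ K, K = closure (T '' Metric.closedBall v₀ r) := ⟨_, rfl⟩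
  have hKc : IsCompact K := by
    rw [hK]
    exact IsCompactOperator.isCompact_closure_image_of_bounded hT' Metric.isBounded_closedBall
  have hKδ : ∀ w ∈ K, δ ≤ ‖w‖ := by
    intro w hw
    have h1 : K ⊆ {w | δ ≤ ‖w‖} := by
      rw [hK]
      refine closure_minimal ?_ (isClosed_le continuous_const continuous_norm)
      rintro _ ⟨z, hz, rfl⟩
      change δ ≤ ‖T z‖
      have h2 : ‖T v₀‖ ≤ ‖T z‖ + ‖T (v₀ - z)‖ := by
        calc ‖T v₀‖ = ‖T z + T (v₀ - z)‖ := by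
              rw [← map_add]
              congr 2
              abel
          _ ≤ _ := norm_add_le _ _
      have h3 : ‖T (v₀ - z)‖ ≤ ‖T‖ * r := by
        refine (T.le_opNorm _).trans (mul_le_mul_of_nonneg_left ?_ (norm_nonneg _))
        rw [← dist_eq_norm, dist_comm]
        exact hz
      rw [hδ] at hrT ⊢
      linarith
    exact h1 hw
  have hKmem : ∀ z, ‖z - v₀‖ < r → T z ∈ K := by
    intro z hz
    rw [hK]
    refine subset_closure ⟨z, ?_, rfl⟩
    rw [Metric.mem_closedBall, dist_eq_norm]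
    exact hz.le
  -- the finite cover
  have hcov : K ⊆ ⋃ c : R, {w | ‖a * (w * b) * c - v₀‖ < r} := by
    intro w hw
    have hw0 : w ≠ 0 := by
      intro h
      have := hKδ w hw
      rw [h, norm_zero] at this
      linarith
    have hwb : w * b ≠ 0 := by
      intro h
      rcases hR _ _ h with h | h
      · exact hw0 h
      · exact hb h
    have h1 := hL a (w * b) ha hwb m₀ hm₀
    rw [← hv₀] at h1
    obtain ⟨_, ⟨c, _, rfl⟩, h2⟩ := Metric.mem_closure_iff.1 h1 r hr0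
    refine Set.mem_iUnion.2 ⟨c, ?_⟩
    change ‖a * (w * b) * c - v₀‖ < r
    rw [← dist_eq_norm, dist_comm]
    exact h2
  obtain ⟨t, ht⟩ := hKc.elim_finite_subcover _ (fun c => isOpen_lt
    (((continuous_const.mul (continuous_id.mul continuous_const)).mul continuous_const).sub
      continuous_const).norm continuous_const) hcov
  obtain ⟨C, hC⟩ : ∃ C, C = ∑ c ∈ t, ‖c‖ := ⟨_, rfl⟩
  have hC0 : 0 ≤ C := by
    rw [hC]
    exact Finset.sum_nonneg fun _ _ => norm_nonneg _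
  have hstep : ∀ w ∈ K, ∃ c : R, ‖c‖ ≤ C ∧ T (a * (w * b) * c) ∈ K := by
    intro w hw
    obtain ⟨c, hc, h1⟩ := Set.mem_iUnion₂.1 (ht hw)
    refine ⟨c, ?_, hKmem _ h1⟩
    rw [hC]
    exact Finset.single_le_sum (f := fun c : R => ‖c‖) (fun _ _ => norm_nonneg _) hc
  obtain ⟨D, hD⟩ : ∃ D, D = ‖b‖ * C * ‖b‖ := ⟨_, rfl⟩
  have hD0 : 0 ≤ D := by
    rw [hD]
    positivity
  -- the sequence
  have hseq : ∀ n : ℕ, ∃ z : R, pw a (2 * n) * z ∈ K ∧ ‖z‖ ≤ ‖v₀ * b‖ * D ^ n := by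
    intro n
    induction n with
    | zero =>
      refine ⟨v₀ * b, ?_, by simp⟩
      change a * (v₀ * b) ∈ K
      rw [← mul_assoc, ← hTa]
      exact hKmem v₀ (by rw [sub_self, norm_zero]; exact hr0)
    | succ n ih =>
      obtain ⟨z, hz, hz'⟩ := ih
      obtain ⟨c, hc, h1⟩ := hstep _ hz
      refine ⟨z * (b * c * b), ?_, ?_⟩
      · have h2 : T (a * (pw a (2 * n) * z * b) * c) = pw a (2 * (n + 1)) * (z * (b * c * b)) := by
          rw [hTa, show 2 * (n + 1) = 2 * n + 1 + 1 by ring, ← mul_pw a (2 * n + 1),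
            ← mul_pw a (2 * n)]
          simp only [mul_assoc]
        rw [← h2]
        exact h1
      · calc ‖z * (b * c * b)‖ ≤ ‖z‖ * ‖b * c * b‖ := norm_mul_le _ _
          _ ≤ ‖z‖ * (‖b‖ * ‖c‖ * ‖b‖) := by
              gcongr
              refine (norm_mul_le _ _).trans ?_
              gcongr
              exact norm_mul_le _ _
          _ ≤ (‖v₀ * b‖ * D ^ n) * (‖b‖ * C * ‖b‖) := by gcongr
          _ = ‖v₀ * b‖ * D ^ (n + 1) := by
              rw [← hD, pow_succ]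
              ring
  -- the contradiction
  obtain ⟨ε, hε⟩ : ∃ ε, ε = 1 / (2 * (D + 1)) := ⟨_, rfl⟩
  have hε0 : 0 < ε := by
    rw [hε]
    positivity
  have hε1 : ε ≤ 1 := by
    rw [hε, div_le_one (by positivity)]
    linarith
  have hεD : ε * D ≤ 1 / 2 := by
    rw [hε, one_div_mul_eq_div, div_le_iff₀ (by positivity)]
    linarith
  have h1 := (tendsto_id.const_mul_atTop' (two_pos)).eventually (hq.eventually_le hε0)
  have h2 : ∀ᶠ n : ℕ in atTop, ‖v₀ * b‖ * (1 / 2 : ℝ) ^ n < δ := by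
    have h3 : Tendsto (fun n : ℕ => ‖v₀ * b‖ * (1 / 2 : ℝ) ^ n) atTop (𝓝 (‖v₀ * b‖ * 0)) :=
      Tendsto.const_mul _ (tendsto_pow_atTop_nhds_zero_of_lt_one (by norm_num) (by norm_num))
    rw [mul_zero] at h3
    exact h3.eventually (gt_mem_nhds hδ0)
  obtain ⟨n, h1, h2⟩ := (h1.and h2).exists
  obtain ⟨z, hz, hz'⟩ := hseq n
  have h3 := hKδ _ hz
  have h4 : ‖pw a (2 * n) * z‖ ≤ ‖v₀ * b‖ * (1 / 2 : ℝ) ^ n := by
    calc ‖pw a (2 * n) * z‖ ≤ ‖pw a (2 * n)‖ * ‖z‖ := norm_mul_le _ _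
      _ ≤ ε ^ (2 * n + 1) * (‖v₀ * b‖ * D ^ n) := by
          gcongr
          exact h1
      _ ≤ ε ^ n * (‖v₀ * b‖ * D ^ n) := by
          gcongr ?_ * _
          exact pow_le_pow_of_le_one hε0.le hε1 (by omega)
      _ = ‖v₀ * b‖ * (ε * D) ^ n := by
          rw [mul_pow]
          ring
      _ ≤ ‖v₀ * b‖ * (1 / 2 : ℝ) ^ n := by gcongr
  linarith

end Pool.Agent.Lib.MP_1185bc_an
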