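import Pool.Agent.Lib.MP_1185bc_an.StepC

/-!
# MP_1185bc_an: the reduction
-/

set_option autoImplicit false

open Filter Topology

namespace Pool.Agent.Lib.MP_1185bc_an

theorem allSemiprime_of_noWildSpecial.{u} (h : NoWildSpecial.{u}) : AllSemiprime.{u} := by
  intro B A _ _ _ _ _ _ _ _ _ _ hA θ hθ
  by_contra hd
  obtain ⟨B', D, i1, i2, i3, i4, i5, j1, j2, j3, j4, j5, θ', hD, hθ', hd'⟩ := stepA B A hA θ hθ hd
  obtain ⟨B'', R, k1, k2, k3, k4, k5, l1, l2, l3, l4, l5, θ'', hR, hq, hθ'', hs, hL, hRt, -⟩ :=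
    stepB B' D hD θ' hθ' hd'
  obtain ⟨B₃, R₃, m1, m2, m3, m4, m5, n1, n2, n3, n4, n5, θ₃, hS, hθ₃, hw⟩ :=
    stepC B'' R hR hq θ'' hθ'' hs hL hRt
  exact h B₃ R₃ hS θ₃ hθ₃ hw

theorem isPrimeAlg_of_special {R : Type*} [NonUnitalNormedRing R] [NormedSpace ℂ R]
    (h : Special R) : IsPrimeAlg R := by
  obtain ⟨⟨x, hx⟩, h1, -⟩ := h
  intro a b hab
  rcases h1 _ _ (hab x) with h2 | h2
  · rcases h1 _ _ h2 with h3 | h3
    · exact Or.inl h3
    · exact absurd h3 hx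
  · exact Or.inr h2

theorem isSemiprime_of_isPrimeAlg {R : Type*} [NonUnitalNormedRing R]
    (h : IsPrimeAlg R) : IsSemiprime R := by
  intro a ha
  rcases h a a ha with h1 | h1 <;> exact h1

theorem allPrime_of_allSemiprime.{u} (h : AllSemiprime.{u}) : AllPrime.{u} := by
  intro B A _ _ _ _ _ _ _ _ _ _ hA θ hθ
  exact h B A (isSemiprime_of_isPrimeAlg hA) θ hθ

theorem noWildSpecial_of_allPrime.{u} (h : AllPrime.{u}) : NoWildSpecial.{u} := by
  intro B A _ _ _ _ _ _ _ _ _ _ hA θ hθ hw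
  have hc := h B A (isPrimeAlg_of_special hA) θ hθ
  obtain ⟨⟨y, hy⟩, -⟩ := hA
  obtain ⟨x, hx, hx'⟩ := hw y
  have h1 := (hc.tendsto 0).comp hx
  rw [map_zero] at h1
  exact hy (tendsto_nhds_unique hx' h1)

/-- The reduction. -/
theorem main.{u} : (AllSemiprime.{u} ↔ NoWildSpecial.{u}) ∧ (AllPrime.{u} ↔ NoWildSpecial.{u}) :=
  ⟨⟨fun h => noWildSpecial_of_allPrime (allPrime_of_allSemiprime h),
      allSemiprime_of_noWildSpecial⟩,
    ⟨noWildSpecial_of_allPrime,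
      fun h => allPrime_of_allSemiprime (allSemiprime_of_noWildSpecial h)⟩⟩

end Pool.Agent.Lib.MP_1185bc_an
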