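import Pool.Agent.Lib.MP_1185bc_an.StepB

/-!
# MP_1185bc_an: the choice of a good element
-/

set_option autoImplicit false

open Filter Topology

namespace Pool.Agent.Lib.MP_1185bc_an

universe u

/-- An element of an ideal of a semiprime algebra which is annihilated by the ideal. -/
theorem eq_zero_of_mul_ideal {A : Type u} [NonUnitalNormedRing A] [NormedSpace ℂ A]
    (hA : IsSemiprime A) (S : Submodule ℂ A) (hS : ∀ a : A, ∀ x ∈ S, a * x ∈ S ∧ x * a ∈ S)
    (z : A) (hz : z ∈ S) (h : ∀ s ∈ S, z * s = 0) : z = 0 :=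
  hA z fun x => by
    rw [mul_assoc]
    exact h _ (hS x z hz).1

theorem eq_zero_of_ideal_mul {A : Type u} [NonUnitalNormedRing A] [NormedSpace ℂ A]
    (hA : IsSemiprime A) (S : Submodule ℂ A) (hS : ∀ a : A, ∀ x ∈ S, a * x ∈ S ∧ x * a ∈ S)
    (z : A) (hz : z ∈ S) (h : ∀ s ∈ S, s * z = 0) : z = 0 :=
  hA z fun x => h _ (hS x z hz).2

theorem ideal_mul_of_mul_ideal {A : Type u} [NonUnitalNormedRing A] [NormedSpace ℂ A]
    (hA : IsSemiprime A) (S : Submodule ℂ A) (hS : ∀ a : A, ∀ x ∈ S, a * x ∈ S ∧ x * a ∈ S)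
    (z : A) (h : ∀ s ∈ S, z * s = 0) (s : A) (hs : s ∈ S) : s * z = 0 :=
  hA _ fun x => by
    have h1 : s * z * x * (s * z) = s * (z * (x * s)) * z := by simp only [mul_assoc]
    rw [h1, h _ (hS x s hs).1, mul_zero, zero_mul]

section
variable {B A : Type u}
  [NonUnitalNormedRing B] [NormedSpace ℂ B] [IsScalarTower ℂ B B] [SMulCommClass ℂ B B]
  [CompleteSpace B]
  [NonUnitalNormedRing A] [NormedSpace ℂ A] [IsScalarTower ℂ A A] [SMulCommClass ℂ A A]
  [CompleteSpace A]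

/-- Left minimality. -/
def PropL (S : Submodule ℂ A) (p : A) : Prop :=
  ∀ a : A, (∃ s ∈ S, p * a * s ≠ 0) → ∀ s ∈ S,
    p * s ∈ closure ((fun x => p * a * x) '' (S : Set A))

/-- Right minimality. -/
def PropR (S : Submodule ℂ A) (p : A) : Prop :=
  ∀ a : A, (∃ s ∈ S, s * (a * p) ≠ 0) → ∀ s ∈ S,
    s * p ∈ closure ((fun x => x * (a * p)) '' (S : Set A))

/-- The domain property. -/
def PropD (S : Submodule ℂ A) (p : A) : Prop :=
  ∀ b a : A, (∀ s ∈ S, b * p * a * s = 0) →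
    (∀ s ∈ S, b * p * s = 0) ∨ (∀ s ∈ S, p * a * s = 0)

theorem PropL.mul_right {S : Submodule ℂ A} (hS : ∀ a : A, ∀ x ∈ S, a * x ∈ S ∧ x * a ∈ S)
    {p : A} (h : PropL S p) (a : A) : PropL S (p * a) := by
  rintro d ⟨s, hs, hd⟩ s' hs'
  have h1 : ∃ s ∈ S, p * (a * d) * s ≠ 0 := ⟨s, hs, fun h2 => hd (by
    have h3 : p * a * d * s = p * (a * d) * s := by simp only [mul_assoc]
    rw [h3, h2])⟩
  have h2 := h (a * d) h1 (a * s') (hS a s' hs').1
  rw [mul_assoc p a s']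
  refine closure_mono ?_ h2
  rintro _ ⟨y, hy, rfl⟩
  refine ⟨y, hy, ?_⟩
  change p * a * d * y = p * (a * d) * y
  simp only [mul_assoc]

theorem PropL.mul_left {S : Submodule ℂ A}
    {p : A} (h : PropL S p) (c : A) : PropL S (c * p) := by
  rintro d ⟨s, hs, hd⟩ s' hs'
  have h1 : ∃ s ∈ S, p * d * s ≠ 0 := ⟨s, hs, fun h2 => hd (by
    have h3 : c * p * d * s = c * (p * d * s) := by simp only [mul_assoc]
    rw [h3, h2, mul_zero])⟩
  have h2 := h d h1 s' hs'
  have h3 := image_closure_subset_closure_image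
    (show Continuous fun z : A => c * z from continuous_const.mul continuous_id) ⟨_, h2, rfl⟩
  rw [mul_assoc c p s']
  refine closure_mono ?_ h3
  rintro _ ⟨_, ⟨y, hy, rfl⟩, rfl⟩
  refine ⟨y, hy, ?_⟩
  change c * p * d * y = c * (p * d * y)
  simp only [mul_assoc]

theorem PropD.mul_left {S : Submodule ℂ A} {p : A} (h : PropD S p) (c : A) :
    PropD S (c * p) := by
  intro b d hbd
  have h1 : ∀ s ∈ S, b * c * p * d * s = 0 := by
    intro s hs
    have := hbd s hs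
    rw [← this]
    simp only [mul_assoc]
  rcases h (b * c) d h1 with h2 | h2
  · left
    intro s hs
    rw [← mul_assoc b c p]
    exact h2 s hs
  · right
    intro s hs
    have h3 : c * p * d * s = c * (p * d * s) := by simp only [mul_assoc]
    rw [h3, h2 s hs, mul_zero]

theorem PropR.mul_right {S : Submodule ℂ A} {p : A} (h : PropR S p) (a : A) :
    PropR S (p * a) := by
  rintro d ⟨s, hs, hd⟩ s' hs'
  have h1 : ∃ s ∈ S, s * (d * p) ≠ 0 := by
    refine ⟨s, hs, fun h2 => hd ?_⟩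
    have h3 : s * (d * (p * a)) = s * (d * p) * a := by simp only [mul_assoc]
    rw [h3, h2, zero_mul]
  have h2 := h d h1 s' hs'
  have h3 := image_closure_subset_closure_image
    (show Continuous fun z : A => z * a from continuous_id.mul continuous_const) ⟨_, h2, rfl⟩
  rw [← mul_assoc s' p a]
  refine closure_mono ?_ h3
  rintro _ ⟨_, ⟨y, hy, rfl⟩, rfl⟩
  refine ⟨y, hy, ?_⟩
  change y * (d * (p * a)) = y * (d * p) * a
  simp only [mul_assoc]

/-- The choice of an element with the three properties. -/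
theorem exists_good (hA : IsSemiprime A) (θ : B →ₙₐ[ℂ] A) (hθ : Function.Surjective θ)
    (h0 : ∃ s ∈ sep (toLin θ), s ≠ 0) :
    ∃ p : A, (∃ s ∈ sep (toLin θ), p * s ≠ 0) ∧ PropL (sep (toLin θ)) p ∧
      PropD (sep (toLin θ)) p ∧ PropR (sep (toLin θ)) p := by
  have hS : ∀ a : A, ∀ x ∈ sep (toLin θ), a * x ∈ sep (toLin θ) ∧ x * a ∈ sep (toLin θ) :=
    (closedIdeal_sep θ hθ).2
  -- left minimality
  obtain ⟨p₁, h1, h2⟩ : ∃ p : A, (∃ s ∈ sep (toLin θ), p * s ≠ 0) ∧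
      PropL (sep (toLin θ)) p := by
    by_contra hcon
    push Not at hcon
    have h1 : ∃ p : A, ∃ s ∈ sep (toLin θ), p * s ≠ 0 := by
      by_contra hcon
      push Not at hcon
      obtain ⟨s, hs, hs0⟩ := h0
      exact hs0 (eq_zero_of_mul_ideal hA _ hS s hs (hcon s))
    obtain ⟨p, hp⟩ := h1
    refine chain_left θ hθ (fun p => ∃ s ∈ sep (toLin θ), p * s ≠ 0) (fun p hp => ?_) p hp
    have h2 := hcon p hp
    unfold PropL at h2
    push Not at h2
    obtain ⟨a, h2, s, hs, h3⟩ := h2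
    obtain ⟨φ, h4, h5⟩ := exists_functional ((sep (toLin θ)).map (LinearMap.mulLeft ℂ (p * a)))
      (p * s) (by
        rw [Submodule.map_coe]
        exact h3)
    exact ⟨a, φ, h2, fun s' hs' => h4 _ ⟨s', hs', rfl⟩, s, hs, h5⟩
  -- the domain property
  obtain ⟨p₂, h3, h4, h5⟩ := exists_p θ hθ (PropL (sep (toLin θ)))
    (fun p a hp => hp.mul_right hS a) ⟨p₁, h2, h1⟩
  -- right minimality
  by_contra hcon
  push Not at hcon
  refine chain_right θ hθ (fun p => (∃ s ∈ sep (toLin θ), p * s ≠ 0) ∧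
    PropL (sep (toLin θ)) p ∧ PropD (sep (toLin θ)) p) (fun p hp => ?_) p₂ ⟨h4, h3, h5⟩
  have h6 := hcon p hp.1 hp.2.1 hp.2.2
  unfold PropR at h6
  push Not at h6
  obtain ⟨a, ⟨t, ht, ht'⟩, s, hs, h7⟩ := h6
  obtain ⟨φ, h8, h9⟩ := exists_functional ((sep (toLin θ)).map (LinearMap.mulRight ℂ (a * p)))
    (s * p) (by
      rw [Submodule.map_coe]
      exact h7)
  refine ⟨a, φ, ⟨?_, hp.2.1.mul_left a, hp.2.2.mul_left a⟩, fun s' hs' => h8 _ ⟨s', hs', rfl⟩,
    s, hs, h9⟩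
  by_contra hcon2
  push Not at hcon2
  exact ht' (ideal_mul_of_mul_ideal hA _ hS (a * p) hcon2 t ht)

/-- No compact element. -/
theorem not_compact_of_propD (hA : IsSemiprime A) (θ : B →ₙₐ[ℂ] A)
    (hθ : Function.Surjective θ) (u : A) (hu : ∃ s ∈ sep (toLin θ), u * s ≠ 0)
    (hD : PropD (sep (toLin θ)) u) : ¬ IsCompactOperator (fun x : A => u * x * u) := by
  intro hc
  obtain ⟨B', D, i1, i2, i3, i4, i5, j1, j2, j3, j4, j5, θ', hD, hθ', hd', hcD⟩ :=
    stepA_core B A hA θ hθ u hu hD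
  obtain ⟨B'', R, k1, k2, k3, k4, k5, l1, l2, l3, l4, l5, θ'', hR, hq, -, ⟨s, hs, hs'⟩,
    hL, -, hcR⟩ := stepB B' D hD θ' hθ' hd'
  exact not_compact hR (sep (toLin θ'') : Set R) ⟨s, hs, hs'⟩ hL s s hs' hs' (hq s)
    (hcR (hcD hc) s s)

end

end Pool.Agent.Lib.MP_1185bc_an
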