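import Pool.Agent.Lib.MP_1185bc_an.MinA

/-!
# MP_1185bc_an: compact elementary operators on minimal closed ideals
-/

set_option autoImplicit false

open Filter Topology

namespace Pool.Agent.Lib.MP_1185bc_an

universe u

section
variable {A : Type u}
  [NonUnitalNormedRing A] [NormedSpace ℂ A] [IsScalarTower ℂ A A] [SMulCommClass ℂ A A]

/-- Minimal closed ideals of semiprime algebras are prime. -/
theorem MinimalClosedIdeal.exists_ne (hA : IsSemiprime A) {J : Submodule ℂ A}
    (hJ : MinimalClosedIdeal J) {a b : A} (ha : a ∈ J) (hb : b ∈ J) (ha0 : a ≠ 0)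
    (hb0 : b ≠ 0) : ∃ y : A, a * y * b ≠ 0 := by
  by_contra hcon
  push Not at hcon
  let K : Submodule ℂ A :=
    { carrier := {x | x ∈ J ∧ ∀ y : A, a * y * x = 0}
      add_mem' := by
        rintro x x' ⟨h1, h2⟩ ⟨h1', h2'⟩
        exact ⟨J.add_mem h1 h1', fun y => by rw [mul_add, h2, h2', add_zero]⟩
      zero_mem' := ⟨J.zero_mem, fun y => mul_zero _⟩
      smul_mem' := by
        rintro c x ⟨h1, h2⟩
        exact ⟨J.smul_mem c h1, fun y => by rw [mul_smul_comm, h2, smul_zero]⟩ }
  have hK : ∀ x, x ∈ K ↔ x ∈ J ∧ ∀ y : A, a * y * x = 0 := fun x => Iff.rfl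
  have hKc : ClosedIdeal K := by
    constructor
    · have h1 : (K : Set A) = (J : Set A) ∩ ⋂ y : A, {x | a * y * x = 0} := by
        ext x
        simp only [Set.mem_inter_iff, Set.mem_iInter, Set.mem_ofPred_eq]
        exact hK x
      rw [h1]
      refine hJ.1.1.inter (isClosed_iInter fun y => ?_)
      exact isClosed_eq (by fun_prop) continuous_const
    · intro c x hx
      rw [hK] at hx
      rw [hK, hK]
      refine ⟨⟨(hJ.1.2 c x hx.1).1, fun y => ?_⟩, ⟨(hJ.1.2 c x hx.1).2, fun y => ?_⟩⟩
      · have h1 : a * y * (c * x) = a * (y * c) * x := by simp only [mul_assoc]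
        rw [h1, hx.2]
      · have h1 : a * y * (x * c) = a * y * x * c := by simp only [mul_assoc]
        rw [h1, hx.2, zero_mul]
  rcases hJ.2.2 K hKc (fun x hx => hx.1) with h | h
  · apply hb0
    have h1 : b ∈ K := ⟨hb, hcon⟩
    rw [h] at h1
    exact (Submodule.mem_bot ℂ).1 h1
  · apply ha0
    have h1 : a ∈ K := by
      rw [h]
      exact ha
    exact hA a fun y => h1.2 y

theorem MinimalClosedIdeal.exists_mem_ne (hA : IsSemiprime A) {J : Submodule ℂ A}
    (hJ : MinimalClosedIdeal J) {a b : A} (ha : a ∈ J) (hb : b ∈ J) (ha0 : a ≠ 0)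
    (hb0 : b ≠ 0) : ∃ z ∈ J, a * z * b ≠ 0 := by
  obtain ⟨y, hy⟩ := hJ.exists_ne hA ha hb ha0 hb0
  obtain ⟨y', hy'⟩ := hJ.exists_ne hA
    (show a * y * b ∈ J from (hJ.1.2 (a * y) b hb).1) hb hy hb0
  refine ⟨y * b * y', (hJ.1.2 y' _ (hJ.1.2 y b hb).1).2, ?_⟩
  intro h
  apply hy'
  rw [← h]
  simp only [mul_assoc]

/-- Elementary operators. -/
def elem {n : ℕ} (a b : Fin n → A) (x : A) : A := ∑ i, a i * x * b i

theorem elem_succ {n : ℕ} (a b : Fin (n + 1) → A) (x : A) :
    elem a b x = a 0 * x * b 0 + elem (fun i => a i.succ) (fun i => b i.succ) x := by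
  unfold elem
  rw [Fin.sum_univ_succ]

theorem elem_mem {J : Submodule ℂ A} (hJ : ClosedIdeal J) {n : ℕ} (a b : Fin n → A) {x : A}
    (hx : x ∈ J) : elem a b x ∈ J :=
  Submodule.sum_mem _ fun i _ => (hJ.2 (b i) _ (hJ.2 (a i) x hx).1).2

/-- Multiplication on the right by `c`, as an operator on `J`. -/
theorem exists_mulR {J : Submodule ℂ A} (hJ : ClosedIdeal J) (c : A) :
    ∃ F : J →L[ℂ] J, ∀ x, (F x : A) = x * c :=
  ⟨((ContinuousLinearMap.mul ℂ A).flip c ∘L J.subtypeL).codRestrict J
    (fun x => (hJ.2 c x x.2).2), fun x => rfl⟩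

theorem exists_mulL {J : Submodule ℂ A} (hJ : ClosedIdeal J) (c : A) :
    ∃ F : J →L[ℂ] J, ∀ x, (F x : A) = c * x :=
  ⟨(ContinuousLinearMap.mul ℂ A c ∘L J.subtypeL).codRestrict J
    (fun x => (hJ.2 c x x.2).1), fun x => rfl⟩

/-- From operators of rank one to elementary operators. -/
theorem elem_eq_zero (hA : IsSemiprime A) {J : Submodule ℂ A} (hJ : MinimalClosedIdeal J)
    (h1 : ∀ a ∈ J, ∀ b ∈ J, a ≠ 0 → b ≠ 0 →
      ¬ IsCompactOperator (fun x : J => a * (x : A) * b)) (n : ℕ) :
    ∀ a b : Fin n → A, (∀ i, a i ∈ J) → (∀ i, b i ∈ J) →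
      IsCompactOperator (fun x : J => elem a b (x : A)) → ∀ x ∈ J, elem a b x = 0 := by
  induction n with
  | zero =>
    intro a b _ _ _ x _
    unfold elem
    rw [Finset.univ_eq_empty, Finset.sum_empty]
  | succ n ih =>
    intro a b ha hb hT x₀ hx₀
    by_contra hx0
    have hR : ∀ y ∈ J, ∀ x ∈ J, elem a b (x * (b 0 * y)) = elem a b x * (y * b 0) := by
      intro y hy x hx
      obtain ⟨F, hF⟩ := exists_mulR hJ.1 (b 0 * y)
      have e1 : ∀ z : A, elem a b (z * (b 0 * y)) - elem a b z * (y * b 0) =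
          elem (fun i => a i.succ) (fun i => b 0 * y * b i.succ - b i.succ * y * b 0) z := by
        intro z
        rw [elem_succ, elem_succ]
        unfold elem
        have e2 : ∑ i : Fin n, a i.succ * z * (b 0 * y * b i.succ - b i.succ * y * b 0) =
            ∑ i : Fin n, a i.succ * (z * (b 0 * y)) * b i.succ -
              (∑ i : Fin n, a i.succ * z * b i.succ) * (y * b 0) := by
          rw [Finset.sum_mul, ← Finset.sum_sub_distrib]
          refine Finset.sum_congr rfl fun i _ => ?_
          rw [mul_sub]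
          simp only [mul_assoc]
        rw [e2, add_mul]
        have e3 : a 0 * (z * (b 0 * y)) * b 0 = a 0 * z * b 0 * (y * b 0) := by
          simp only [mul_assoc]
        rw [e3]
        abel
      have h2 := ih (fun i => a i.succ) (fun i => b 0 * y * b i.succ - b i.succ * y * b 0)
        (fun i => ha _) (fun i => J.sub_mem (hJ.1.2 _ _ (hb _)).1 (hJ.1.2 _ _ (hb _)).1) (by
          have h3 : (fun z : J => elem (fun i => a i.succ)
              (fun i => b 0 * y * b i.succ - b i.succ * y * b 0) (z : A)) =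
              ((fun x : J => elem a b (x : A)) ∘ F) -
                ((fun w : A => w * (y * b 0)) ∘ fun x : J => elem a b (x : A)) := by
            funext z
            rw [Pi.sub_apply, Function.comp_apply, Function.comp_apply, hF, e1]
          rw [h3]
          exact (hT.comp_clm F).sub
            (hT.continuous_comp (continuous_id.mul continuous_const))) x hx
      rw [← e1] at h2
      exact sub_eq_zero.1 h2
    have hL : ∀ y ∈ J, ∀ x ∈ J, elem a b (y * a 0 * x) = a 0 * y * elem a b x := by
      intro y hy x hx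
      obtain ⟨F, hF⟩ := exists_mulL hJ.1 (y * a 0)
      have e1 : ∀ z : A, elem a b (y * a 0 * z) - a 0 * y * elem a b z =
          elem (fun i => a i.succ * y * a 0 - a 0 * y * a i.succ) (fun i => b i.succ) z := by
        intro z
        rw [elem_succ, elem_succ]
        unfold elem
        have e2 : ∑ i : Fin n, (a i.succ * y * a 0 - a 0 * y * a i.succ) * z * b i.succ =
            ∑ i : Fin n, a i.succ * (y * a 0 * z) * b i.succ -
              a 0 * y * (∑ i : Fin n, a i.succ * z * b i.succ) := by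
          rw [Finset.mul_sum, ← Finset.sum_sub_distrib]
          refine Finset.sum_congr rfl fun i _ => ?_
          rw [sub_mul, sub_mul]
          simp only [mul_assoc]
        rw [e2, mul_add]
        have e3 : a 0 * (y * a 0 * z) * b 0 = a 0 * y * (a 0 * z * b 0) := by
          simp only [mul_assoc]
        rw [e3]
        abel
      have h2 := ih (fun i => a i.succ * y * a 0 - a 0 * y * a i.succ) (fun i => b i.succ)
        (fun i => J.sub_mem (hJ.1.2 _ _ (ha 0)).1 (hJ.1.2 _ _ (ha _)).1) (fun i => hb _) (by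
          have h3 : (fun z : J => elem (fun i => a i.succ * y * a 0 - a 0 * y * a i.succ)
              (fun i => b i.succ) (z : A)) =
              ((fun x : J => elem a b (x : A)) ∘ F) -
                ((fun w : A => a 0 * y * w) ∘ fun x : J => elem a b (x : A)) := by
            funext z
            rw [Pi.sub_apply, Function.comp_apply, Function.comp_apply, hF, e1]
          rw [h3]
          exact (hT.comp_clm F).sub
            (hT.continuous_comp (continuous_const.mul continuous_id))) x hx
      rw [← e1] at h2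
      exact sub_eq_zero.1 h2
    have hT0 : elem a b x₀ ∈ J := elem_mem hJ.1 a b hx₀
    have hzero : a 0 = 0 ∨ b 0 = 0 := by
      by_contra hcon
      push Not at hcon
      obtain ⟨z, hz, hz'⟩ := hJ.exists_mem_ne hA hT0 (hb 0) hx0 hcon.2
      have hw : x₀ * (b 0 * z) ∈ J := (hJ.1.2 _ _ hx₀).2
      obtain ⟨F, hF⟩ := exists_mulR hJ.1 (a 0 * (x₀ * (b 0 * z)))
      refine h1 (a 0) (ha 0) (elem a b x₀ * (z * b 0)) (hJ.1.2 _ _ hT0).2 hcon.1
        (by rwa [← mul_assoc]) ?_
      have h3 : (fun x : J => a 0 * (x : A) * (elem a b x₀ * (z * b 0))) =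
          (fun x : J => elem a b (x : A)) ∘ F := by
        funext y
        rw [Function.comp_apply, hF, ← hR z hz x₀ hx₀, ← hL y y.2 _ hw]
        simp only [mul_assoc]
      rw [h3]
      exact hT.comp_clm F
    have e1 : ∀ x, elem a b x = elem (fun i => a i.succ) (fun i => b i.succ) x := by
      intro x
      rw [elem_succ]
      rcases hzero with h | h
      · rw [h, zero_mul, zero_mul, zero_add]
      · rw [h, mul_zero, zero_add]
    apply hx0
    rw [e1]
    refine ih _ _ (fun i => ha _) (fun i => hb _) ?_ x₀ hx₀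
    have h3 : (fun x : J => elem (fun i => a i.succ) (fun i => b i.succ) (x : A)) =
        (fun x : J => elem a b (x : A)) := by
      funext x
      rw [e1]
    rw [h3]
    exact hT

/-- The same for coefficients outside `J`. -/
theorem elem_eq_zero' (hA : IsSemiprime A) {J : Submodule ℂ A} (hJ : MinimalClosedIdeal J)
    (h1 : ∀ a ∈ J, ∀ b ∈ J, a ≠ 0 → b ≠ 0 →
      ¬ IsCompactOperator (fun x : J => a * (x : A) * b)) (n : ℕ)
    (a b : Fin n → A) (hT : IsCompactOperator (fun x : J => elem a b (x : A))) (x : A)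
    (hx : x ∈ J) : elem a b x = 0 := by
  by_contra h0
  have hT0 : elem a b x ∈ J := elem_mem hJ.1 a b hx
  obtain ⟨y, hy⟩ := hJ.exists_ne hA hT0 hT0 h0 h0
  obtain ⟨y', hy'⟩ := hJ.exists_ne hA
    (show elem a b x * y * elem a b x ∈ J from (hJ.1.2 _ _ hT0).1) hT0 hy h0
  obtain ⟨c, hc⟩ : ∃ c, c = elem a b x * y := ⟨_, rfl⟩
  obtain ⟨d, hd⟩ : ∃ d, d = y' * elem a b x := ⟨_, rfl⟩
  have hcJ : c ∈ J := by
    rw [hc]
    exact (hJ.1.2 _ _ hT0).2
  have hdJ : d ∈ J := by
    rw [hd]
    exact (hJ.1.2 _ _ hT0).1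
  have e1 : ∀ z, elem (fun i => c * a i) (fun i => b i * d) z = c * elem a b z * d := by
    intro z
    unfold elem
    rw [Finset.mul_sum, Finset.sum_mul]
    refine Finset.sum_congr rfl fun i _ => ?_
    simp only [mul_assoc]
  have h2 := elem_eq_zero hA hJ h1 n (fun i => c * a i) (fun i => b i * d)
    (fun i => (hJ.1.2 _ _ hcJ).2) (fun i => (hJ.1.2 _ _ hdJ).1) (by
      have h3 : (fun z : J => elem (fun i => c * a i) (fun i => b i * d) (z : A)) =
          (fun w : A => c * w * d) ∘ fun x : J => elem a b (x : A) := by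
        funext z
        rw [Function.comp_apply, e1]
      rw [h3]
      exact hT.continuous_comp (by fun_prop)) x hx
  rw [e1, hc, hd] at h2
  apply hy'
  rw [← h2]
  simp only [mul_assoc]

end

end Pool.Agent.Lib.MP_1185bc_an
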