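import Pool.Agent.Lib.MP_1185bc_an.MinB

/-!
# MP_1185bc_an: the structure of the target of a discontinuous epimorphism
-/

set_option autoImplicit false

open Filter Topology

namespace Pool.Agent.Lib.MP_1185bc_an

universe u

/-- The target of a discontinuous epimorphism onto a semiprime algebra. -/
theorem exists_minimal_ideal (B A : Type u)
    [NonUnitalNormedRing B] [NormedSpace ℂ B] [IsScalarTower ℂ B B] [SMulCommClass ℂ B B]
    [CompleteSpace B]
    [NonUnitalNormedRing A] [NormedSpace ℂ A] [IsScalarTower ℂ A A] [SMulCommClass ℂ A A]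
    [CompleteSpace A] (hA : IsSemiprime A)
    (θ : B →ₙₐ[ℂ] A) (hθ : Function.Surjective θ) (hd : ¬ Continuous θ) :
    ∃ (J : Submodule ℂ A) (p : A), MinimalClosedIdeal J ∧ (∀ x ∈ J, QuasiNil x) ∧
      (∀ x ∈ J, ∃ b : ℕ → B, Tendsto b atTop (𝓝 0) ∧
        Tendsto (fun n => θ (b n)) atTop (𝓝 x)) ∧
      p ∈ J ∧ p ≠ 0 ∧
      (∀ a b : A, a * p * b = 0 → a * p = 0 ∨ p * b = 0) ∧
      (∀ a : A, p * a ≠ 0 → ∀ x ∈ J, p * x ∈ closure {z | ∃ y ∈ J, z = p * a * y}) ∧
      (∀ a : A, a * p ≠ 0 → ∀ x ∈ J, x * p ∈ closure {z | ∃ y ∈ J, z = y * a * p}) ∧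
      ∀ (n : ℕ) (a b : Fin n → A),
        IsCompactOperator (fun x : J => ∑ i, a i * (x : A) * b i) →
          ∀ x ∈ J, ∑ i, a i * x * b i = 0 := by
  have h0 : ∃ s ∈ sep (toLin θ), s ≠ 0 := by
    by_contra hcon
    push Not at hcon
    apply hd
    exact continuous_of_sep_eq_bot (toLin θ) ((Submodule.eq_bot_iff _).2 hcon)
  have hS : ∀ a : A, ∀ x ∈ sep (toLin θ), a * x ∈ sep (toLin θ) ∧ x * a ∈ sep (toLin θ) :=
    (closedIdeal_sep θ hθ).2
  obtain ⟨q, ⟨s₀, hs₀, hqs₀⟩, hL, hD, hR⟩ := exists_good hA θ hθ h0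
  -- the ideal `J`
  obtain ⟨G, hG⟩ : ∃ G : Set A, G = {y | ∃ x : A, ∃ s ∈ sep (toLin θ), y = x * (q * s)} :=
    ⟨_, rfl⟩
  obtain ⟨J, hJ⟩ : ∃ J, J = (Submodule.span ℂ G).topologicalClosure := ⟨_, rfl⟩
  have hcl : IsClosed (J : Set A) := by
    rw [hJ]
    exact (Submodule.span ℂ G).isClosed_topologicalClosure
  have hmem : ∀ x : A, ∀ s ∈ sep (toLin θ), x * (q * s) ∈ J := by
    intro x s hs
    rw [hJ]
    refine Submodule.le_topologicalClosure _ (Submodule.subset_span ?_)
    rw [hG]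
    exact ⟨x, s, hs, rfl⟩
  have hmin : ∀ T : Submodule ℂ A, IsClosed (T : Set A) →
      (∀ x : A, ∀ s ∈ sep (toLin θ), x * (q * s) ∈ T) → J ≤ T := by
    intro T hT h
    rw [hJ]
    refine Submodule.topologicalClosure_minimal _ (Submodule.span_le.2 ?_) hT
    rw [hG]
    rintro _ ⟨x, s, hs, rfl⟩
    exact h x s hs
  have hJS : J ≤ sep (toLin θ) := hmin _ (isClosed_sep _) fun x s hs =>
    mul_mem_sep θ hθ x (mul_mem_sep θ hθ q hs)
  have hideal : ClosedIdeal J := by
    refine ⟨hcl, fun a x hx => ⟨?_, ?_⟩⟩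
    · have h1 := hmin (J.comap (LinearMap.mulLeft ℂ a)) (by
          rw [Submodule.comap_coe]
          exact hcl.preimage (continuous_const.mul continuous_id)) (fun y s hs => by
          rw [Submodule.mem_comap, LinearMap.mulLeft_apply, ← mul_assoc]
          exact hmem _ _ hs)
      exact h1 hx
    · have h1 := hmin (J.comap (LinearMap.mulRight ℂ a)) (by
          rw [Submodule.comap_coe]
          exact hcl.preimage (continuous_id.mul continuous_const)) (fun y s hs => by
          rw [Submodule.mem_comap, LinearMap.mulRight_apply, mul_assoc, mul_assoc]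
          exact hmem _ _ (mem_sep_mul θ hθ a hs))
      exact h1 hx
  have hsemi : ∀ v : A, v ≠ 0 → ∃ x, v * x * v ≠ 0 := by
    intro v hv
    by_contra hcon
    push Not at hcon
    exact hv (hA v hcon)
  have hJ0 : J ≠ ⊥ := by
    obtain ⟨x, hx⟩ := hsemi _ hqs₀
    exact (Submodule.ne_bot_iff _).2 ⟨_, hmem (q * s₀ * x) s₀ hs₀, hx⟩
  -- minimality
  have hJm : MinimalClosedIdeal J := by
    refine ⟨hideal, hJ0, fun K hK hKJ => ?_⟩
    by_cases h : ∃ a ∈ K, ∃ s ∈ sep (toLin θ), q * a * s ≠ 0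
    · right
      obtain ⟨a, ha, s, hs, has⟩ := h
      refine le_antisymm hKJ (hmin K hK.1 fun x t ht => ?_)
      have h1 := hL a ⟨s, hs, has⟩ t ht
      have h2 : q * t ∈ K := by
        refine hK.1.closure_subset_iff.2 ?_ h1
        rintro _ ⟨y, -, rfl⟩
        exact (hK.2 y _ (hK.2 q a ha).1).2
      exact (hK.2 x _ h2).1
    · left
      push Not at h
      rw [Submodule.eq_bot_iff]
      intro a ha
      have h1 : ∀ s ∈ sep (toLin θ), ∀ j ∈ J, j * (a * s) = 0 := by
        intro s hs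
        have h2 := hmin (LinearMap.ker (LinearMap.mulRight ℂ (a * s)))
          (by
            have h3 : (LinearMap.ker (LinearMap.mulRight ℂ (a * s)) : Set A) =
                {x | x * (a * s) = 0} := by
              ext x
              exact LinearMap.mem_ker
            rw [h3]
            exact isClosed_eq (by fun_prop) continuous_const)
          (fun x t ht => by
            rw [LinearMap.mem_ker, LinearMap.mulRight_apply]
            have h3 : x * (q * t) * (a * s) = x * (q * (t * a) * s) := by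
              simp only [mul_assoc]
            rw [h3, h (t * a) (hK.2 t a ha).1 s hs, mul_zero])
        intro j hj
        exact h2 hj
      refine hA a fun x => ?_
      refine eq_zero_of_mul_ideal hA _ hS _ (hS (a * x) a (hJS (hKJ ha))).1 fun s hs => ?_
      rw [mul_assoc]
      exact h1 s hs _ (hideal.2 x a (hKJ ha)).2
  -- the element `p`
  obtain ⟨x₁, hx₁⟩ := hsemi _ hqs₀
  obtain ⟨x₂, hx₂⟩ := hsemi _ hx₁
  obtain ⟨j, hj⟩ : ∃ j, j = s₀ * x₁ * (q * s₀) * x₂ := ⟨_, rfl⟩
  have hjJ : j ∈ J := by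
    rw [hj]
    exact (hideal.2 x₂ _ (hmem _ _ hs₀)).2
  obtain ⟨p, hp⟩ : ∃ p, p = q * j * q := ⟨_, rfl⟩
  have hpJ : p ∈ J := by
    rw [hp]
    exact (hideal.2 q _ (hideal.2 q j hjJ).1).2
  have hp0 : p ≠ 0 := by
    intro h
    apply hx₂
    have h1 : q * s₀ * x₁ * (q * s₀) * x₂ * (q * s₀ * x₁ * (q * s₀)) =
        q * j * q * (s₀ * x₁ * (q * s₀)) := by
      rw [hj]
      simp only [mul_assoc]
    rw [h1, ← hp, h, zero_mul]
  have hpL : PropL (sep (toLin θ)) p := by
    rw [hp]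
    exact hL.mul_left (q * j)
  have hpD : PropD (sep (toLin θ)) p := by
    rw [hp]
    exact hD.mul_left (q * j)
  have hpR : PropR (sep (toLin θ)) p := by
    rw [hp, mul_assoc]
    exact hR.mul_right (j * q)
  have hne : ∀ z ∈ sep (toLin θ), z ≠ 0 → ∃ s ∈ sep (toLin θ), z * s ≠ 0 := by
    intro z hz hz0
    by_contra hcon
    push Not at hcon
    exact hz0 (eq_zero_of_mul_ideal hA _ hS z hz hcon)
  have hne' : ∀ z ∈ sep (toLin θ), z ≠ 0 → ∃ s ∈ sep (toLin θ), s * z ≠ 0 := by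
    intro z hz hz0
    by_contra hcon
    push Not at hcon
    exact hz0 (eq_zero_of_ideal_mul hA _ hS z hz hcon)
  refine ⟨J, p, hJm, fun x hx => quasiNil_of_mem_sep θ hθ x (hJS hx), fun x hx => hJS hx,
    hpJ, hp0, ?_, ?_, ?_, ?_⟩
  · -- the domain property
    intro a b hab
    rcases hpD a b (fun s _ => by rw [hab, zero_mul]) with h | h
    · left
      exact eq_zero_of_mul_ideal hA _ hS _ (hJS (hideal.2 a p hpJ).1) h
    · right
      exact eq_zero_of_mul_ideal hA _ hS _ (hJS (hideal.2 b p hpJ).2) h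
  · -- left minimality
    intro a ha x hx
    obtain ⟨c, hc, hc'⟩ : ∃ c ∈ J, p * a * c ≠ 0 := by
      by_contra hcon
      push Not at hcon
      exact ha (eq_zero_of_mul_ideal hA J hideal.2 _ (hideal.2 a p hpJ).2 hcon)
    obtain ⟨s, hs, hs'⟩ := hne (p * a * c) (hJS (hideal.2 _ _ hc).1) hc'
    have h1 := hpL (a * c) ⟨s, hs, by rwa [← mul_assoc p a c]⟩ x (hJS hx)
    refine closure_mono ?_ h1
    rintro _ ⟨y, -, rfl⟩
    refine ⟨c * y, (hideal.2 y c hc).2, ?_⟩
    change p * (a * c) * y = _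
    simp only [mul_assoc]
  · -- right minimality
    intro a ha x hx
    obtain ⟨c, hc, hc'⟩ : ∃ c ∈ J, c * (a * p) ≠ 0 := by
      by_contra hcon
      push Not at hcon
      exact ha (eq_zero_of_ideal_mul hA J hideal.2 _ (hideal.2 a p hpJ).1 hcon)
    obtain ⟨s, hs, hs'⟩ := hne' (c * (a * p)) (hJS (hideal.2 _ _ hc).2) hc'
    have h1 := hpR (c * a) ⟨s, hs, by rwa [mul_assoc c a p]⟩ x (hJS hx)
    refine closure_mono ?_ h1
    rintro _ ⟨y, -, rfl⟩
    refine ⟨y * c, (hideal.2 y c hc).1, ?_⟩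
    change y * (c * a * p) = _
    simp only [mul_assoc]
  · -- compact operators
    intro n a b hT x hx
    refine elem_eq_zero' hA hJm ?_ n a b hT x hx
    intro a ha b hb ha0 hb0 hc
    obtain ⟨r, hr⟩ := hJm.exists_ne hA hpJ hb hp0 hb0
    obtain ⟨y, hy⟩ := hJm.exists_ne hA (show p * r * b ∈ J from (hideal.2 _ _ hb).1) ha hr ha0
    obtain ⟨t, ht⟩ := hJm.exists_ne hA
      (show p * r * b * y * a ∈ J from (hideal.2 _ _ ha).1) hpJ hy hp0
    obtain ⟨u, hu⟩ : ∃ u, u = p * r * b * y * a * t * p := ⟨_, rfl⟩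
    rw [← hu] at ht
    have huJ : u ∈ J := by
      rw [hu]
      exact (hideal.2 _ _ hpJ).1
    refine not_compact_of_propD hA θ hθ u (hne u (hJS huJ) ht)
      (by rw [hu]; exact hpD.mul_left (p * r * b * y * a * t)) ?_
    obtain ⟨F, hF⟩ : ∃ F : A →L[ℂ] J, ∀ x, (F x : A) = t * p * x * (p * r) :=
      ⟨((ContinuousLinearMap.mul ℂ A).flip (p * r) ∘L
        ContinuousLinearMap.mul ℂ A (t * p)).codRestrict J
        (fun x => (hideal.2 (t * p * x) _ (hideal.2 r p hpJ).2).1), fun x => rfl⟩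
    have h1 : (fun x : A => u * x * u) =
        (fun w : A => p * r * b * y * w * (y * a * t * p)) ∘
          ((fun x : J => a * (x : A) * b) ∘ F) := by
      funext x
      rw [Function.comp_apply, Function.comp_apply, hF, hu]
      simp only [mul_assoc]
    rw [h1]
    exact (hc.comp_clm F).continuous_comp (by fun_prop)

end Pool.Agent.Lib.MP_1185bc_an
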