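import Pool.Agent.Lib.MP_1185bc_an.Defs

/-!
# MP_1185bc_an: the quotient of a Banach algebra by a closed two-sided ideal
-/

set_option autoImplicit false

open Filter Topology

namespace Pool.Agent.Lib.MP_1185bc_an

universe u

section
variable {A : Type u}
    [NonUnitalNormedRing A] [NormedSpace ℂ A] [IsScalarTower ℂ A A] [SMulCommClass ℂ A A]
    (N : Submodule ℂ A) (hN : ClosedIdeal N)

/-- multiplication of the quotient -/
noncomputable def quotMulAux : A →ₗ[ℂ] (A ⧸ N →ₗ[ℂ] A ⧸ N) where
  toFun := fun a => N.mapQ N (LinearMap.mulLeft ℂ a) (fun x hx => (hN.2 a x hx).1)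
  map_add' := fun a b => LinearMap.ext fun y => by
    obtain ⟨y, rfl⟩ := Submodule.Quotient.mk_surjective _ y
    change (Submodule.Quotient.mk ((a + b) * y) : A ⧸ N) = Submodule.Quotient.mk (a * y) +
      Submodule.Quotient.mk (b * y)
    rw [add_mul, Submodule.Quotient.mk_add]
  map_smul' := fun c a => LinearMap.ext fun y => by
    obtain ⟨y, rfl⟩ := Submodule.Quotient.mk_surjective _ y
    change (Submodule.Quotient.mk ((c • a) * y) : A ⧸ N) = c • Submodule.Quotient.mk (a * y)
    rw [smul_mul_assoc, Submodule.Quotient.mk_smul]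

/-- multiplication of the quotient -/
noncomputable def quotMul : A ⧸ N →ₗ[ℂ] (A ⧸ N →ₗ[ℂ] A ⧸ N) :=
  N.liftQ (quotMulAux N hN) (fun x hx => LinearMap.ext fun y => by
    obtain ⟨y, rfl⟩ := Submodule.Quotient.mk_surjective _ y
    change (Submodule.Quotient.mk (x * y) : A ⧸ N) = 0
    exact (Submodule.Quotient.mk_eq_zero N).2 (hN.2 y x hx).2)

theorem quotMul_mk (a b : A) : quotMul N hN (Submodule.Quotient.mk a) (Submodule.Quotient.mk b) =
    Submodule.Quotient.mk (a * b) := rfl

end

/-- The quotient Banach algebra, packaged as an existence statement. -/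
theorem exists_quot (A : Type u)
    [NonUnitalNormedRing A] [NormedSpace ℂ A] [IsScalarTower ℂ A A] [SMulCommClass ℂ A A]
    [CompleteSpace A] (N : Submodule ℂ A) (hN : ClosedIdeal N) :
    ∃ (D : Type u) (_ : NonUnitalNormedRing D) (_ : NormedSpace ℂ D) (_ : IsScalarTower ℂ D D)
      (_ : SMulCommClass ℂ D D) (_ : CompleteSpace D) (q : A →ₙₐ[ℂ] D),
      Function.Surjective q ∧ Continuous q ∧ ∀ x, q x = 0 ↔ x ∈ N := by
  have hcl : IsClosed (N : Set A) := hN.1
  let iR : NonUnitalNormedRing (A ⧸ N) :=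
    { Submodule.Quotient.normedAddCommGroup N with
      mul := fun x y => quotMul N hN x y
      left_distrib := fun x y z => (quotMul N hN x).map_add y z
      right_distrib := fun x y z => by
        change quotMul N hN (x + y) z = _
        rw [map_add]
        rfl
      zero_mul := fun x => by
        change quotMul N hN 0 x = 0
        rw [map_zero]
        rfl
      mul_zero := fun x => (quotMul N hN x).map_zero
      mul_assoc := fun x y z => by
        obtain ⟨x, rfl⟩ := Submodule.Quotient.mk_surjective _ x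
        obtain ⟨y, rfl⟩ := Submodule.Quotient.mk_surjective _ y
        obtain ⟨z, rfl⟩ := Submodule.Quotient.mk_surjective _ z
        change (Submodule.Quotient.mk (x * y * z) : A ⧸ N) = Submodule.Quotient.mk (x * (y * z))
        rw [mul_assoc]
      norm_mul_le := fun x y => by
        change ‖quotMul N hN x y‖ ≤ ‖x‖ * ‖y‖
        refine le_of_forall_pos_le_add fun ε hε => ?_
        have hc : ContinuousAt (fun δ : ℝ => (‖x‖ + δ) * (‖y‖ + δ)) 0 := by fun_prop
        have hc' : ∀ᶠ δ in 𝓝 (0 : ℝ), (‖x‖ + δ) * (‖y‖ + δ) < ‖x‖ * ‖y‖ + ε := by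
          have := hc.eventually_lt_const (u := ‖x‖ * ‖y‖ + ε) (by simp; exact hε)
          exact this
        obtain ⟨r, hr, hr'⟩ := Metric.eventually_nhds_iff.1 hc'
        have h1 := hr' (y := r / 2) (by
          rw [dist_zero_right, Real.norm_of_nonneg (by positivity)]
          linarith)
        obtain ⟨a, ha, ha'⟩ := Submodule.Quotient.norm_mk_lt x (half_pos hr)
        obtain ⟨b, hb, hb'⟩ := Submodule.Quotient.norm_mk_lt y (half_pos hr)
        calc ‖quotMul N hN x y‖ = ‖(Submodule.Quotient.mk (a * b) : A ⧸ N)‖ := by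
              rw [← quotMul_mk N hN, ha, hb]
          _ ≤ ‖a * b‖ := Submodule.Quotient.norm_mk_le N _
          _ ≤ ‖a‖ * ‖b‖ := norm_mul_le _ _
          _ ≤ (‖x‖ + r / 2) * (‖y‖ + r / 2) := by gcongr
          _ ≤ ‖x‖ * ‖y‖ + ε := h1.le }
  let iS : NormedSpace ℂ (A ⧸ N) := Submodule.Quotient.normedSpace N ℂ
  have i1 : IsScalarTower ℂ (A ⧸ N) (A ⧸ N) := ⟨fun c x y => by
    change quotMul N hN (c • x) y = c • quotMul N hN x y
    rw [map_smul]
    rfl⟩
  have i2 : SMulCommClass ℂ (A ⧸ N) (A ⧸ N) := ⟨fun c x y => by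
    change c • quotMul N hN x y = quotMul N hN x (c • y)
    rw [map_smul]⟩
  have i3 : CompleteSpace (A ⧸ N) := Submodule.Quotient.completeSpace N
  refine ⟨A ⧸ N, iR, iS, i1, i2, i3,
    { toFun := fun x => Submodule.Quotient.mk x
      map_smul' := fun c x => rfl
      map_zero' := rfl
      map_add' := fun x y => rfl
      map_mul' := fun x y => rfl }, ?_, ?_, ?_⟩
  · exact Submodule.Quotient.mk_surjective N
  · exact N.mkQL.continuous
  · intro x
    exact Submodule.Quotient.mk_eq_zero N

end Pool.Agent.Lib.MP_1185bc_an
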