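import Pool.Agent.Lib.MP_1185bc_an.Defs

/-!
# MP_1185bc_an: algebra homomorphisms do not increase the spectral radius
-/

set_option autoImplicit false

open Filter Topology

namespace Pool.Agent.Lib.MP_1185bc_an

/-- The homomorphism of unital Banach algebras given by `θ`. -/
private noncomputable def rad0Map {B A : Type*}
    [NonUnitalNormedRing B] [NormedSpace ℂ B] [IsScalarTower ℂ B B] [SMulCommClass ℂ B B]
    [NonUnitalNormedRing A] [NormedSpace ℂ A] [IsScalarTower ℂ A A] [SMulCommClass ℂ A A]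
    (θ : B →ₙₐ[ℂ] A) :
    WithLp 1 (Unitization ℂ B) →ₐ[ℂ] WithLp 1 (Unitization ℂ A) :=
  ((WithLp.unitizationAlgEquiv (𝕜 := ℂ) (A := A) ℂ).symm : Unitization ℂ A →ₐ[ℂ] _).comp
    ((Unitization.lift ((Unitization.inrNonUnitalAlgHom ℂ A).comp θ)).comp
      ((WithLp.unitizationAlgEquiv (𝕜 := ℂ) (A := B) ℂ) : _ →ₐ[ℂ] Unitization ℂ B))

private theorem rad0Map_inr {B A : Type*}
    [NonUnitalNormedRing B] [NormedSpace ℂ B] [IsScalarTower ℂ B B] [SMulCommClass ℂ B B]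
    [NonUnitalNormedRing A] [NormedSpace ℂ A] [IsScalarTower ℂ A A] [SMulCommClass ℂ A A]
    (θ : B →ₙₐ[ℂ] A) (x : B) :
    rad0Map θ (WithLp.toLp 1 (x : Unitization ℂ B)) =
      WithLp.toLp 1 ((θ x : A) : Unitization ℂ A) := by
  simp [rad0Map]
  rfl

private theorem rad0_pow {A : Type*}
    [NonUnitalNormedRing A] [NormedSpace ℂ A] [IsScalarTower ℂ A A] [SMulCommClass ℂ A A]
    (y : A) (n : ℕ) :
    (WithLp.toLp 1 (y : Unitization ℂ A)) ^ (n + 1) =
      WithLp.toLp 1 ((pw y n : A) : Unitization ℂ A) := by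
  induction n with
  | zero => simp [pw]
  | succ n ih =>
    rw [pow_succ, ih, pw, Unitization.inr_mul]
    rfl

private theorem rad0_spectralRadius_le {B A : Type*}
    [NonUnitalNormedRing B] [NormedSpace ℂ B] [IsScalarTower ℂ B B] [SMulCommClass ℂ B B]
    [CompleteSpace B]
    [NonUnitalNormedRing A] [NormedSpace ℂ A] [IsScalarTower ℂ A A] [SMulCommClass ℂ A A]
    (θ : B →ₙₐ[ℂ] A) (z : WithLp 1 (Unitization ℂ B)) :
    spectralRadius ℂ (rad0Map θ z) ≤ ‖z‖₊ := by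
  have hone : ‖(1 : WithLp 1 (Unitization ℂ B))‖ = 1 := by
    rw [WithLp.unitization_norm_def]
    have : WithLp.ofLp (1 : WithLp 1 (Unitization ℂ B)) = (1 : Unitization ℂ B) := rfl
    rw [this]
    simp
  have : NormOneClass (WithLp 1 (Unitization ℂ B)) := ⟨hone⟩
  refine le_trans ?_ (spectrum.spectralRadius_le_nnnorm (𝕜 := ℂ) z)
  unfold spectralRadius
  exact biSup_mono fun k hk => AlgHom.spectrum_apply_subset (rad0Map θ) z hk

/-- For an algebra homomorphism `θ : B → A` of Banach algebras (not assumed continuous or unital)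
and `‖x‖ < K` there is `n` with `‖(θ x) ^ (n + 1)‖ < K ^ (n + 1)`.

Proof. Pass to the unital Banach algebras `WithLp 1 (Unitization ℂ B)`, `WithLp 1 (Unitization ℂ A)`
(Mathlib, `Mathlib/Analysis/Normed/Algebra/UnitizationL1.lean`) and the unital homomorphism
`Θ = Unitization.map θ`. Then `spectrum (Θ x̂) ⊆ spectrum x̂` (`AlgHom.spectrum_apply_subset`), so
`spectralRadius (Θ x̂) ≤ spectralRadius x̂ ≤ ‖x‖ < K`
(`spectrum.spectralRadius_le_nnnorm` or `spectrum.spectralRadius_le_pow_nnnorm_pow_one_div`), and by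
Gelfand's formula (`spectrum.pow_norm_pow_one_div_tendsto_nhds_spectralRadius`)
`‖(Θ x̂) ^ (n + 1)‖ ^ (1 / (n + 1)) < K` for large `n`. Finally
`‖(Θ x̂) ^ (n + 1)‖ = ‖pw (θ x) n‖`. -/
theorem rad0 {B A : Type*}
    [NonUnitalNormedRing B] [NormedSpace ℂ B] [IsScalarTower ℂ B B] [SMulCommClass ℂ B B]
    [CompleteSpace B]
    [NonUnitalNormedRing A] [NormedSpace ℂ A] [IsScalarTower ℂ A A] [SMulCommClass ℂ A A]
    [CompleteSpace A]
    (θ : B →ₙₐ[ℂ] A) (x : B) (K : ℝ) (hK : ‖x‖ < K) :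
    ∃ n : ℕ, ‖pw (θ x) n‖ < K ^ (n + 1) := by
  have h1 : spectralRadius ℂ (rad0Map θ (WithLp.toLp 1 (x : Unitization ℂ B))) <
      ENNReal.ofReal K := by
    refine (rad0_spectralRadius_le θ _).trans_lt ?_
    rw [WithLp.unitization_nnnorm_inr]
    have h0 : ((‖x‖₊ : NNReal) : ENNReal) = ENNReal.ofReal ‖x‖ := by
      rw [← coe_nnnorm, ENNReal.ofReal_coe_nnreal]
    rw [h0, ENNReal.ofReal_lt_ofReal_iff_of_nonneg (norm_nonneg x)]
    exact hK
  have h2 := spectrum.pow_norm_pow_one_div_tendsto_nhds_spectralRadius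
    (rad0Map θ (WithLp.toLp 1 (x : Unitization ℂ B)))
  have hK0 : 0 < K := lt_of_le_of_lt (norm_nonneg x) hK
  obtain ⟨N, hN⟩ := eventually_atTop.1 (h2.eventually (eventually_lt_nhds h1))
  refine ⟨N, ?_⟩
  have h3 := hN (N + 1) (Nat.le_succ N)
  rw [rad0Map_inr, rad0_pow, WithLp.unitization_norm_inr] at h3
  rw [ENNReal.ofReal_lt_ofReal_iff hK0] at h3
  have h4 : (‖pw (θ x) N‖ ^ (1 / ((N + 1 : ℕ) : ℝ))) ^ (N + 1) < K ^ (N + 1) :=
    pow_lt_pow_left₀ h3 (Real.rpow_nonneg (norm_nonneg _) _) (Nat.succ_ne_zero N)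
  rwa [one_div, Real.rpow_inv_natCast_pow (norm_nonneg _) (Nat.succ_ne_zero N)] at h4

end Pool.Agent.Lib.MP_1185bc_an
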