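import Pool.Agent.Lib.MP_1185bc_an.Defs

/-!
# MP_1185bc_an: compactness on the circle
-/

set_option autoImplicit false

open Filter Topology

namespace Pool.Agent.Lib.MP_1185bc_an

/-- `x ^ (a + b + 2) = x ^ (a + 1) * x ^ (b + 1)`. -/
private theorem rad1_pw_add {A : Type*} [NonUnitalNormedRing A] (x : A) (a b : ℕ) :
    pw x (a + b + 1) = pw x a * pw x b := by
  induction b with
  | zero => rfl
  | succ b ih =>
    have e : a + (b + 1) + 1 = (a + b + 1) + 1 := by ring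
    rw [e]
    show pw x (a + b + 1) * x = pw x a * (pw x b * x)
    rw [ih, mul_assoc]

private theorem rad1_norm_pw {A : Type*} [NonUnitalNormedRing A] (x : A) (n j : ℕ) :
    ‖pw x (n + j * (n + 1))‖ ≤ ‖pw x n‖ ^ (j + 1) := by
  induction j with
  | zero => simp
  | succ j ih =>
    have e : n + (j + 1) * (n + 1) = (n + j * (n + 1)) + n + 1 := by ring
    rw [e, rad1_pw_add, pow_succ]
    exact (norm_mul_le _ _).trans (mul_le_mul_of_nonneg_right ih (norm_nonneg _))

private theorem rad1_continuous {A : Type*} [NonUnitalNormedRing A] [NormedSpace ℂ A]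
    (c d : A) (n : ℕ) : Continuous fun z : ℂ => pw (z • c + d) n := by
  have h0 : Continuous fun z : ℂ => z • c + d :=
    (continuous_id.smul continuous_const).add continuous_const
  induction n with
  | zero => exact h0
  | succ n ih => exact ih.mul h0

/-- If for every `z` on the circle `‖z‖ = R` some power of `z • c + d` satisfies
`‖(z • c + d) ^ (n + 1)‖ < K ^ (n + 1)` then there are arbitrarily large `m` such that
`‖(z • c + d) ^ (m + 1)‖ ≤ K ^ (m + 1)` for all `z` on the circle.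

Proof. For each `z₀` on the circle, `z ↦ pw (z • c + d) n` is continuous, so the inequality
`‖pw (z • c + d) n‖ < K ^ (n + 1)` persists in a neighbourhood of `z₀`. The circle is compact
(`isCompact_sphere`), so finitely many exponents `n₁ + 1, ..., n_k + 1` suffice; let `Q` be their
product. If `m + 1` is a positive multiple of `Q`, `m + 1 = (n + 1) j`, then
`‖x ^ (m + 1)‖ ≤ ‖x ^ (n + 1)‖ ^ j ≤ K ^ (m + 1)` for `x = z • c + d`.
(Useful: `pw x (a + b + 1) = pw x a * pw x b`.) -/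
theorem rad1 {A : Type*}
    [NonUnitalNormedRing A] [NormedSpace ℂ A] [IsScalarTower ℂ A A] [SMulCommClass ℂ A A]
    (c d : A) (R K : ℝ) (hR : 0 < R) (hK : 0 < K)
    (h : ∀ z : ℂ, ‖z‖ = R → ∃ n : ℕ, ‖pw (z • c + d) n‖ < K ^ (n + 1)) (N : ℕ) :
    ∃ m : ℕ, N ≤ m ∧ ∀ z : ℂ, ‖z‖ = R → ‖pw (z • c + d) m‖ ≤ K ^ (m + 1) := by
  classical
  obtain ⟨t, ht⟩ := (isCompact_sphere (0 : ℂ) R).elim_finite_subcover
    (fun n : ℕ => {z : ℂ | ‖pw (z • c + d) n‖ < K ^ (n + 1)})
    (fun n => isOpen_lt (rad1_continuous c d n).norm continuous_const)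
    (fun z hz => by
      obtain ⟨n, hn⟩ := h z (by simpa using hz)
      exact Set.mem_iUnion.2 ⟨n, hn⟩)
  have hQ : 0 < ∏ n ∈ t, (n + 1) := Finset.prod_pos fun n _ => Nat.succ_pos n
  refine ⟨(∏ n ∈ t, (n + 1)) * (N + 1) - 1, ?_, ?_⟩
  · have h1 : N + 1 ≤ (∏ n ∈ t, (n + 1)) * (N + 1) := Nat.le_mul_of_pos_left _ hQ
    omega
  · intro z hz
    obtain ⟨n, hnt, hn⟩ := Set.mem_iUnion₂.1 (ht (by simpa using hz : z ∈ Metric.sphere (0 : ℂ) R))
    obtain ⟨q, hq⟩ : (n + 1) ∣ ∏ n ∈ t, (n + 1) := Finset.dvd_prod_of_mem (fun n => n + 1) hnt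
    have hq0 : 0 < q := by
      rcases Nat.eq_zero_or_pos q with h0 | h0
      · rw [hq, h0] at hQ
        simp at hQ
      · exact h0
    obtain ⟨j, hj⟩ : ∃ j, q * (N + 1) = j + 1 :=
      ⟨q * (N + 1) - 1, (Nat.succ_pred_eq_of_pos (Nat.mul_pos hq0 (Nat.succ_pos N))).symm⟩
    have hm : (∏ n ∈ t, (n + 1)) * (N + 1) - 1 = n + j * (n + 1) := by
      rw [hq, mul_assoc, hj]
      have : (n + 1) * (j + 1) = n + j * (n + 1) + 1 := by ring
      omega
    rw [hm]
    have hn' : ‖pw (z • c + d) n‖ ≤ K ^ (n + 1) := le_of_lt hn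
    calc ‖pw (z • c + d) (n + j * (n + 1))‖ ≤ ‖pw (z • c + d) n‖ ^ (j + 1) := rad1_norm_pw _ n j
      _ ≤ (K ^ (n + 1)) ^ (j + 1) := pow_le_pow_left₀ (norm_nonneg _) hn' _
      _ = K ^ (n + j * (n + 1) + 1) := by
        rw [← pow_mul]
        congr 1
        ring

end Pool.Agent.Lib.MP_1185bc_an
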