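import Pool.Agent.Lib.MP_1185bc_an.Defs

/-!
# MP_1185bc_an: the three circles inequality for powers of `z • c + d`
-/

set_option autoImplicit false

open Filter Topology

namespace Pool.Agent.Lib.MP_1185bc_an

private theorem rad2_norm_pw {A : Type*} [NonUnitalNormedRing A] (x : A) (m : ℕ) :
    ‖pw x m‖ ≤ ‖x‖ ^ (m + 1) := by
  induction m with
  | zero => simp [pw]
  | succ m ih =>
    show ‖pw x m * x‖ ≤ ‖x‖ ^ (m + 1 + 1)
    rw [pow_succ]
    exact (norm_mul_le _ _).trans (mul_le_mul_of_nonneg_right ih (norm_nonneg _))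

private theorem rad2_diff {A : Type*}
    [NonUnitalNormedRing A] [NormedSpace ℂ A] [IsScalarTower ℂ A A] [SMulCommClass ℂ A A]
    {g : ℂ → A} (hg : Differentiable ℂ g) (m : ℕ) : Differentiable ℂ fun w => pw (g w) m := by
  have hmul : Differentiable ℂ fun p : A × A => p.1 * p.2 :=
    (ContinuousLinearMap.mul ℂ A).isBoundedBilinearMap.differentiable
  induction m with
  | zero => exact hg
  | succ m ih => exact hmul.comp (ih.prodMk hg)

/-- Three circles inequality for the polynomial `z ↦ (z • c + d) ^ (m + 1)` and the radii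
`1 / R < 1 < R`.

Proof. Apply Hadamard's three lines theorem
(`Complex.HadamardThreeLines.norm_le_interp_of_mem_verticalClosedStrip₀₁'`) to
`f w = pw (Complex.exp ((2 * w - 1) * Real.log R) • c + d) m` at `w = 1 / 2`: it is an entire
function, bounded on the strip `0 ≤ re w ≤ 1`, bounded by `Y` on `re w = 0` and by `X` on
`re w = 1`, and `f (1 / 2) = pw (c + d) m`. -/
theorem rad2 {A : Type*}
    [NonUnitalNormedRing A] [NormedSpace ℂ A] [IsScalarTower ℂ A A] [SMulCommClass ℂ A A]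
    (c d : A) (R X Y : ℝ) (hR : 1 < R) (m : ℕ)
    (hX : ∀ z : ℂ, ‖z‖ = R → ‖pw (z • c + d) m‖ ≤ X)
    (hY : ∀ z : ℂ, ‖z‖ = 1 / R → ‖pw (z • c + d) m‖ ≤ Y) :
    ‖pw (c + d) m‖ ≤ Real.sqrt X * Real.sqrt Y := by
  have hR0 : 0 < R := one_pos.trans hR
  have hl : 0 < Real.log R := Real.log_pos hR
  set e : ℂ → ℂ := fun w => Complex.exp ((2 * w - 1) * (Real.log R : ℂ)) with he
  set f : ℂ → A := fun w => pw (e w • c + d) m with hf
  have hen : ∀ w : ℂ, ‖e w‖ = Real.exp ((2 * w.re - 1) * Real.log R) := by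
    intro w
    rw [he]
    show ‖Complex.exp _‖ = _
    rw [Complex.norm_exp]
    congr 1
    simp
  have hed : Differentiable ℂ e := by
    rw [he]
    fun_prop
  have hfd : Differentiable ℂ f := rad2_diff ((hed.smul_const c).add_const d) m
  have h := Complex.HadamardThreeLines.norm_le_interp_of_mem_verticalClosedStrip₀₁' f
    (z := (1 / 2 : ℂ)) (a := Y) (b := X) ?_ hfd.diffContOnCl ?_ ?_ ?_
  · have h1 : f (1 / 2) = pw (c + d) m := by
      rw [hf, he]
      simp
    rw [h1] at h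
    have h2 : ((1 / 2 : ℂ)).re = (1 / 2 : ℝ) := by norm_num
    rw [h2] at h
    have h3 : (1 : ℝ) - 1 / 2 = 1 / 2 := by norm_num
    rw [h3, ← Real.sqrt_eq_rpow, ← Real.sqrt_eq_rpow] at h
    rwa [mul_comm] at h
  · show (1 / 2 : ℂ).re ∈ Set.Icc (0 : ℝ) 1
    norm_num
  · refine ⟨(R * ‖c‖ + ‖d‖) ^ (m + 1), ?_⟩
    rintro _ ⟨w, hw, rfl⟩
    have hw' : 0 ≤ w.re ∧ w.re ≤ 1 := hw
    show ‖f w‖ ≤ _
    refine (rad2_norm_pw _ m).trans (pow_le_pow_left₀ (norm_nonneg _) ?_ _)
    refine (norm_add_le _ _).trans (add_le_add ?_ le_rfl)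
    rw [norm_smul]
    refine mul_le_mul_of_nonneg_right ?_ (norm_nonneg _)
    rw [hen]
    calc Real.exp ((2 * w.re - 1) * Real.log R) ≤ Real.exp (Real.log R) := by
          apply Real.exp_le_exp.2
          nlinarith [hw'.2]
      _ = R := Real.exp_log hR0
  · intro w hw
    have hw' : w.re = 0 := hw
    apply hY
    rw [hen, hw', mul_zero, zero_sub, neg_one_mul, Real.exp_neg, Real.exp_log hR0, one_div]
  · intro w hw
    have hw' : w.re = 1 := hw
    apply hX
    rw [hen, hw', mul_one]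
    norm_num
    exact Real.exp_log hR0

end Pool.Agent.Lib.MP_1185bc_an
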