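import Pool.Agent.Lib.MP_1185bc_an.Defs

/-!
# MP_1185bc_an: a criterion for quasinilpotence
-/

set_option autoImplicit false

open Filter Topology

namespace Pool.Agent.Lib.MP_1185bc_an

private theorem rad3_pw_add {A : Type*} [NonUnitalNormedRing A] (s : A) (a b : ℕ) :
    pw s (a + b + 1) = pw s a * pw s b := by
  induction b with
  | zero => rfl
  | succ b ih =>
    show pw s (a + b + 1) * s = pw s a * (pw s b * s)
    rw [ih, mul_assoc]

/-- If for every `ε > 0` some power satisfies `‖s ^ (m + 1)‖ ≤ ε ^ (m + 1)` then `s` is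
quasinilpotent.

Proof. Given `0 < ε`, take `m` for `ε / 2`. For `n + 1 = q (m + 1) + r` with `r ≤ m`,
`‖s ^ (n + 1)‖ ≤ ‖s ^ (m + 1)‖ ^ q * (1 + ‖s‖) ^ m ≤ C * (ε / 2) ^ (n + 1)` with `C` independent
of `n` (for `ε ≤ 2`: `(ε / 2) ^ (q (m + 1)) ≤ (ε / 2) ^ (n + 1) * (ε / 2) ^ (-m)`), and
`C ^ (1 / (n + 1)) → 1`, so `‖s ^ (n + 1)‖ ^ (1 / (n + 1)) < ε` for large `n`.
(Useful: `pw x (a + b + 1) = pw x a * pw x b`.) -/
theorem rad3 {A : Type*} [NonUnitalNormedRing A] (s : A)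
    (h : ∀ ε : ℝ, 0 < ε → ∃ m : ℕ, ‖pw s m‖ ≤ ε ^ (m + 1)) : QuasiNil s := by
  unfold QuasiNil
  rw [Metric.tendsto_atTop]
  intro ε hε
  obtain ⟨m, hm⟩ := h (ε / 2) (half_pos hε)
  set δ : ℝ := ε / 2 with hδ
  have hδ0 : 0 < δ := half_pos hε
  set C : ℝ := ∑ r ∈ Finset.range (m + 1), ‖pw s r‖ / δ ^ (r + 1) + 1 with hC
  have hterm : ∀ r, 0 ≤ ‖pw s r‖ / δ ^ (r + 1) := fun r =>
    div_nonneg (norm_nonneg _) (pow_nonneg hδ0.le _)
  have hC1 : 1 ≤ C := by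
    rw [hC]
    have := Finset.sum_nonneg fun r (_ : r ∈ Finset.range (m + 1)) => hterm r
    linarith
  have hC0 : 0 < C := one_pos.trans_le hC1
  have hb : ∀ n, ‖pw s n‖ ≤ C * δ ^ (n + 1) := by
    intro n
    induction n using Nat.strong_induction_on with
    | _ n ih =>
      by_cases hn : n < m + 1
      · have h1 : ‖pw s n‖ / δ ^ (n + 1) ≤ C := by
          have h2 := Finset.single_le_sum (fun r _ => hterm r) (Finset.mem_range.2 hn)
          rw [hC]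
          linarith
        exact (div_le_iff₀ (pow_pos hδ0 _)).1 h1
      · obtain ⟨k, rfl⟩ : ∃ k, n = m + k + 1 := ⟨n - (m + 1), by omega⟩
        rw [rad3_pw_add]
        calc ‖pw s m * pw s k‖ ≤ ‖pw s m‖ * ‖pw s k‖ := norm_mul_le _ _
          _ ≤ δ ^ (m + 1) * (C * δ ^ (k + 1)) :=
            mul_le_mul hm (ih k (by omega)) (norm_nonneg _) (pow_nonneg hδ0.le _)
          _ = C * δ ^ (m + k + 1 + 1) := by ring
  have hlim : Tendsto (fun n : ℕ => C ^ (1 / ((n : ℝ) + 1))) atTop (𝓝 1) := by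
    have h1 : Tendsto (fun n : ℕ => 1 / ((n : ℝ) + 1)) atTop (𝓝 0) :=
      tendsto_one_div_add_atTop_nhds_zero_nat
    have h2 := (Real.continuousAt_const_rpow hC0.ne' (b := 0)).tendsto.comp h1
    rw [Real.rpow_zero] at h2
    exact h2
  obtain ⟨N, hN⟩ := (hlim.eventually (gt_mem_nhds (show (1 : ℝ) < 2 by norm_num))).exists_forall_of_atTop
  refine ⟨N, fun n hn => ?_⟩
  have hn0 : (0 : ℝ) < (n : ℝ) + 1 := by positivity
  rw [Real.dist_0_eq_abs, abs_of_nonneg (Real.rpow_nonneg (norm_nonneg _) _)]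
  calc ‖pw s n‖ ^ (1 / ((n : ℝ) + 1)) ≤ (C * δ ^ (n + 1)) ^ (1 / ((n : ℝ) + 1)) :=
        Real.rpow_le_rpow (norm_nonneg _) (hb n) (by positivity)
    _ = C ^ (1 / ((n : ℝ) + 1)) * δ := by
        rw [Real.mul_rpow hC0.le (pow_nonneg hδ0.le _)]
        congr 1
        rw [← Real.rpow_natCast, ← Real.rpow_mul hδ0.le]
        push_cast
        rw [mul_one_div_cancel hn0.ne', Real.rpow_one]
    _ < 2 * δ := mul_lt_mul_of_pos_right (hN n hn) hδ0
    _ = ε := by rw [hδ]; ring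

end Pool.Agent.Lib.MP_1185bc_an
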