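import Pool.Agent.Lib.MP_1185bc_an.Chain
import Pool.Agent.Lib.MP_1185bc_an.Rad0
import Pool.Agent.Lib.MP_1185bc_an.Rad1
import Pool.Agent.Lib.MP_1185bc_an.Rad2
import Pool.Agent.Lib.MP_1185bc_an.Rad3

/-!
# MP_1185bc_an: the separating space of an epimorphism consists of quasinilpotent elements
-/

set_option autoImplicit false

open Filter Topology

namespace Pool.Agent.Lib.MP_1185bc_an

theorem norm_pw_le {A : Type*} [NonUnitalNormedRing A] (x : A) (m : ℕ) :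
    ‖pw x m‖ ≤ ‖x‖ ^ (m + 1) := by
  induction m with
  | zero => simp [pw]
  | succ m ih =>
    show ‖pw x m * x‖ ≤ ‖x‖ ^ (m + 1 + 1)
    rw [pow_succ]
    exact (norm_mul_le _ _).trans (mul_le_mul_of_nonneg_right ih (norm_nonneg _))

theorem quasiNil_of_mem_sep {B A : Type*}
    [NonUnitalNormedRing B] [NormedSpace ℂ B] [IsScalarTower ℂ B B] [SMulCommClass ℂ B B]
    [CompleteSpace B]
    [NonUnitalNormedRing A] [NormedSpace ℂ A] [IsScalarTower ℂ A A] [SMulCommClass ℂ A A]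
    [CompleteSpace A]
    (θ : B →ₙₐ[ℂ] A) (hθ : Function.Surjective θ) (s : A) (hs : s ∈ sep (toLin θ)) :
    QuasiNil s := by
  refine rad3 s fun ε hε => ?_
  obtain ⟨b, hb⟩ := hθ s
  obtain ⟨K, hK⟩ : ∃ K, K = ‖b‖ + 1 := ⟨_, rfl⟩
  have hK0 : 0 < K := by
    rw [hK]
    positivity
  obtain ⟨R, hR⟩ : ∃ R, R = 2 + K * (‖s‖ + 2) / ε ^ 2 := ⟨_, rfl⟩
  have hR2 : 2 ≤ R := by
    rw [hR]
    have : 0 ≤ K * (‖s‖ + 2) / ε ^ 2 := by positivity
    linarith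
  have hR0 : 0 < R := by linarith
  obtain ⟨L, hL⟩ : ∃ L, L = (‖s‖ + 2) / R := ⟨_, rfl⟩
  have hL0 : 0 ≤ L := by
    rw [hL]
    positivity
  have hKL : K * L ≤ ε ^ 2 := by
    rw [hL, ← mul_div_assoc, div_le_iff₀ hR0]
    have h1 : K * (‖s‖ + 2) = ε ^ 2 * (K * (‖s‖ + 2) / ε ^ 2) := by
      field_simp
    rw [h1]
    apply mul_le_mul_of_nonneg_left _ (sq_nonneg ε)
    rw [hR]
    linarith
  obtain ⟨δ, hδ⟩ : ∃ δ, δ = 1 / (2 * (R + 1)) := ⟨_, rfl⟩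
  have hδ0 : 0 < δ := by
    rw [hδ]
    positivity
  have hδ1 : R * δ + δ = 1 / 2 := by
    rw [hδ]
    field_simp
  obtain ⟨x, hx, hx'⟩ := mem_sep_iff.1 hs δ hδ0
  rw [toLin_apply] at hx'
  have hcirc : ∀ z : ℂ, ‖z‖ = R → ∃ n : ℕ, ‖pw (z • θ x + (s - θ x)) n‖ < K ^ (n + 1) := by
    intro z hz
    have h1 : z • θ x + (s - θ x) = θ (z • x + (b - x)) := by
      rw [map_add, map_sub, map_smul, hb]
    rw [h1]
    apply rad0
    calc ‖z • x + (b - x)‖ ≤ ‖z • x‖ + ‖b - x‖ := norm_add_le _ _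
      _ ≤ ‖z‖ * ‖x‖ + (‖b‖ + ‖x‖) := by
          rw [norm_smul]
          gcongr
          exact norm_sub_le _ _
      _ < K := by
          rw [hz, hK]
          have h2 : R * ‖x‖ ≤ R * δ := mul_le_mul_of_nonneg_left hx.le hR0.le
          linarith
  obtain ⟨m, -, hm⟩ := rad1 (θ x) (s - θ x) R K hR0 hK0 hcirc 0
  have hθx : ‖θ x‖ ≤ ‖s‖ + δ := by
    calc ‖θ x‖ = ‖(θ x - s) + s‖ := by rw [sub_add_cancel]
      _ ≤ ‖θ x - s‖ + ‖s‖ := norm_add_le _ _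
      _ ≤ ‖s‖ + δ := by linarith
  have hin : ∀ z : ℂ, ‖z‖ = 1 / R → ‖pw (z • θ x + (s - θ x)) m‖ ≤ L ^ (m + 1) := by
    intro z hz
    refine (norm_pw_le _ _).trans (pow_le_pow_left₀ (norm_nonneg _) ?_ _)
    have h3 : R * δ ≤ 1 / 2 := by linarith
    calc ‖z • θ x + (s - θ x)‖ ≤ ‖z • θ x‖ + ‖s - θ x‖ := norm_add_le _ _
      _ ≤ 1 / R * (‖s‖ + δ) + δ := by
          rw [norm_smul, hz, norm_sub_rev]
          gcongr
      _ ≤ L := by
          rw [hL, le_div_iff₀ hR0, add_mul, mul_comm (1 / R), mul_assoc, one_div_mul_cancel hR0.ne']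
          nlinarith
  have h4 := rad2 (θ x) (s - θ x) R (K ^ (m + 1)) (L ^ (m + 1)) (by linarith) m hm hin
  rw [add_sub_cancel] at h4
  refine ⟨m, h4.trans ?_⟩
  rw [← Real.sqrt_mul (by positivity), ← mul_pow]
  calc Real.sqrt ((K * L) ^ (m + 1)) ≤ Real.sqrt ((ε ^ 2) ^ (m + 1)) := by
        apply Real.sqrt_le_sqrt
        exact pow_le_pow_left₀ (by positivity) hKL _
    _ = ε ^ (m + 1) := by
        rw [← pow_mul, mul_comm 2, pow_mul, Real.sqrt_sq (by positivity)]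

end Pool.Agent.Lib.MP_1185bc_an
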