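import Pool.Agent.Lib.MP_1185bc_an.Defs

/-!
# MP_1185bc_an: the separating space, the closed graph theorem modulo the separating space
-/

set_option autoImplicit false

open Filter Topology

namespace Pool.Agent.Lib.MP_1185bc_an

section
variable {X Y Z : Type*} [NormedAddCommGroup X] [NormedSpace ℂ X]
  [NormedAddCommGroup Y] [NormedSpace ℂ Y]
  [NormedAddCommGroup Z] [NormedSpace ℂ Z]

/-- The separating space of a linear map: all limits of `f (x n)` with `x n → 0`. -/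
def sep (f : X →ₗ[ℂ] Y) : Submodule ℂ Y where
  carrier := {y | ∃ x : ℕ → X, Tendsto x atTop (𝓝 0) ∧ Tendsto (fun n => f (x n)) atTop (𝓝 y)}
  add_mem' := by
    rintro a b ⟨x, hx, hx'⟩ ⟨y, hy, hy'⟩
    refine ⟨fun n => x n + y n, by simpa using hx.add hy, ?_⟩
    simpa using hx'.add hy'
  zero_mem' := ⟨fun _ => 0, tendsto_const_nhds, by simp⟩
  smul_mem' := by
    rintro c a ⟨x, hx, hx'⟩
    refine ⟨fun n => c • x n, by simpa using hx.const_smul c, ?_⟩
    simpa using hx'.const_smul c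

theorem mem_sep {f : X →ₗ[ℂ] Y} {y : Y} : y ∈ sep f ↔
    ∃ x : ℕ → X, Tendsto x atTop (𝓝 0) ∧ Tendsto (fun n => f (x n)) atTop (𝓝 y) := Iff.rfl

/-- Approximation form. -/
theorem mem_sep_iff {f : X →ₗ[ℂ] Y} {y : Y} : y ∈ sep f ↔
    ∀ ε > 0, ∃ x : X, ‖x‖ < ε ∧ ‖f x - y‖ < ε := by
  constructor
  · rintro ⟨x, hx, hx'⟩ ε hε
    have h1 : ∀ᶠ n in atTop, ‖x n‖ < ε := by
      have := hx.norm
      rw [norm_zero] at this
      exact this.eventually (gt_mem_nhds hε)
    have h2 : ∀ᶠ n in atTop, ‖f (x n) - y‖ < ε := by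
      have := (hx'.sub_const y).norm
      rw [sub_self, norm_zero] at this
      exact this.eventually (gt_mem_nhds hε)
    obtain ⟨n, h1, h2⟩ := (h1.and h2).exists
    exact ⟨x n, h1, h2⟩
  · intro h
    choose x hx hx' using fun n : ℕ => h (1 / ((n : ℝ) + 1)) (by positivity)
    refine ⟨x, ?_, ?_⟩
    · exact squeeze_zero_norm (fun n => (hx n).le) tendsto_one_div_add_atTop_nhds_zero_nat
    · rw [tendsto_iff_norm_sub_tendsto_zero]
      exact squeeze_zero (fun n => norm_nonneg _) (fun n => (hx' n).le)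
        tendsto_one_div_add_atTop_nhds_zero_nat

theorem isClosed_sep (f : X →ₗ[ℂ] Y) : IsClosed (sep f : Set Y) := by
  refine isClosed_of_closure_subset fun y hy => ?_
  rw [SetLike.mem_coe, mem_sep_iff]
  intro ε hε
  obtain ⟨s, hs, hs'⟩ := Metric.mem_closure_iff.1 hy (ε / 2) (by positivity)
  obtain ⟨x, hx, hx'⟩ := mem_sep_iff.1 hs (ε / 2) (by positivity)
  refine ⟨x, by linarith, ?_⟩
  rw [dist_eq_norm] at hs'
  calc ‖f x - y‖ = ‖(f x - s) - (y - s)‖ := by congr 1; abel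
    _ ≤ ‖f x - s‖ + ‖y - s‖ := norm_sub_le _ _
    _ < ε := by linarith

/-- The image of the separating space under a continuous map is in the separating space. -/
theorem map_mem_sep (f : X →ₗ[ℂ] Y) (S : Y →L[ℂ] Z) {y : Y} (hy : y ∈ sep f) :
    S y ∈ sep ((S : Y →ₗ[ℂ] Z) ∘ₗ f) := by
  obtain ⟨x, hx, hx'⟩ := hy
  exact ⟨x, hx, (S.continuous.tendsto y).comp hx'⟩

theorem sep_eq_bot_of_continuous (f : X →ₗ[ℂ] Y) (hf : Continuous f) : sep f = ⊥ := by
  rw [eq_bot_iff]
  rintro y ⟨x, hx, hx'⟩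
  have h := (hf.tendsto 0).comp hx
  rw [map_zero] at h
  exact (Submodule.mem_bot ℂ).2 (tendsto_nhds_unique hx' h)

variable [CompleteSpace X] [CompleteSpace Y]

/-- Closed graph theorem modulo the separating space. -/
theorem continuous_comp_of_ker [CompleteSpace Z] (f : X →ₗ[ℂ] Y) (Q : Y →L[ℂ] Z)
    (hQ : ∀ y, Q y = 0 ↔ y ∈ sep f)
    (hnorm : ∀ y, ∀ ε > 0, ∃ s ∈ sep f, ‖y - s‖ < ‖Q y‖ + ε) (hsurj : Function.Surjective Q) :
    Continuous ((Q : Y →ₗ[ℂ] Z) ∘ₗ f) := by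
  refine LinearMap.continuous_of_seq_closed_graph (g := (Q : Y →ₗ[ℂ] Z) ∘ₗ f) ?_
  intro u x z hu hz
  obtain ⟨y, rfl⟩ := hsurj z
  have hy : y - f x ∈ sep f := by
    rw [mem_sep_iff]
    intro ε hε
    have h1 : ∀ᶠ n in atTop, ‖u n - x‖ < ε / 4 := by
      have := tendsto_iff_norm_sub_tendsto_zero.1 hu
      exact this.eventually (gt_mem_nhds (by positivity))
    have h2 : ∀ᶠ n in atTop, ‖Q (f (u n)) - Q y‖ < ε / 4 := by
      have := tendsto_iff_norm_sub_tendsto_zero.1 hz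
      exact this.eventually (gt_mem_nhds (by positivity))
    obtain ⟨n, h1, h2⟩ := (h1.and h2).exists
    obtain ⟨s, hs, hs'⟩ := hnorm (f (u n) - y) (ε / 4) (by positivity)
    rw [map_sub] at hs'
    obtain ⟨v, hv, hv'⟩ := mem_sep_iff.1 hs (ε / 4) (by positivity)
    refine ⟨u n - x - v, ?_, ?_⟩
    · calc ‖u n - x - v‖ ≤ ‖u n - x‖ + ‖v‖ := norm_sub_le _ _
        _ < ε := by linarith
    · calc ‖f (u n - x - v) - (y - f x)‖ = ‖(f (u n) - y - s) - (f v - s)‖ := by
            rw [map_sub, map_sub]; congr 1; abel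
        _ ≤ ‖f (u n) - y - s‖ + ‖f v - s‖ := norm_sub_le _ _
        _ < ε := by linarith
  have h3 := (hQ _).2 hy
  rw [map_sub, sub_eq_zero] at h3
  exact h3

/-- If `S` vanishes on the separating space then `S ∘ f` is continuous. -/
theorem continuous_comp (f : X →ₗ[ℂ] Y) (S : Y →L[ℂ] Z) (hS : ∀ s ∈ sep f, S s = 0) :
    Continuous fun x => S (f x) := by
  have hc : IsClosed (sep f : Set Y) := isClosed_sep f
  let Q : Y →L[ℂ] (Y ⧸ sep f) := (sep f).mkQL
  have hQ : ∀ y, Q y = Submodule.Quotient.mk y := fun y => rfl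
  have h1 : Continuous ((Q : Y →ₗ[ℂ] (Y ⧸ sep f)) ∘ₗ f) := by
    refine continuous_comp_of_ker f Q (fun y => ?_) (fun y ε hε => ?_) (fun z => ?_)
    · rw [hQ, Submodule.Quotient.mk_eq_zero]
    · obtain ⟨m, hm, hm'⟩ := Submodule.Quotient.norm_mk_lt (Q y) hε
      refine ⟨y - m, ?_, by simpa using hm'⟩
      rw [← (Submodule.Quotient.eq (sep f))]
      exact (hm.trans (hQ y)).symm
    · obtain ⟨y, hy⟩ := Submodule.Quotient.mk_surjective _ z
      exact ⟨y, hy⟩
  let L : (Y ⧸ sep f) →L[ℂ] Z := (sep f).liftQL S (by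
    intro s hs
    exact hS s hs)
  have h2 : (fun x => S (f x)) = fun x => L (((Q : Y →ₗ[ℂ] (Y ⧸ sep f)) ∘ₗ f) x) := by
    ext x
    rfl
  rw [h2]
  exact L.continuous.comp h1

/-- A linear map with trivial separating space is continuous. -/
theorem continuous_of_sep_eq_bot (f : X →ₗ[ℂ] Y) (h : sep f = ⊥) : Continuous f := by
  have := continuous_comp f (ContinuousLinearMap.id ℂ Y) (fun s hs => by
    rw [h, Submodule.mem_bot] at hs
    rw [hs, map_zero])
  exact this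

end

end Pool.Agent.Lib.MP_1185bc_an
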