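import Pool.Agent.Lib.MP_1185bc_an.Sep

/-!
# MP_1185bc_an: the stability lemma (gliding hump)
-/

set_option autoImplicit false

open Filter Topology

namespace Pool.Agent.Lib.MP_1185bc_an

/-- The product `T 0 ∘ T 1 ∘ ... ∘ T (n - 1)`. -/
def opProd {Y : Type*} [NormedAddCommGroup Y] [NormedSpace ℂ Y] (T : ℕ → Y →L[ℂ] Y) :
    ℕ → Y →L[ℂ] Y
  | 0 => ContinuousLinearMap.id ℂ Y
  | n + 1 => (opProd T n).comp (T n)

section
variable {X Y : Type*} [NormedAddCommGroup X] [NormedSpace ℂ X]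
  [NormedAddCommGroup Y] [NormedSpace ℂ Y]

theorem opProd_succ_apply (T : ℕ → Y →L[ℂ] Y) (n : ℕ) (y : Y) :
    opProd T (n + 1) y = opProd T n (T n y) := rfl

theorem map_opProd (f : X →ₗ[ℂ] Y) (R : ℕ → X →L[ℂ] X) (T : ℕ → Y →L[ℂ] Y)
    (h : ∀ n x, f (R n x) = T n (f x)) (n : ℕ) (x : X) :
    f (opProd R n x) = opProd T n (f x) := by
  induction n generalizing x with
  | zero => rfl
  | succ n ih => rw [opProd_succ_apply, opProd_succ_apply, ih, h]

/-- products `R n ∘ R (n + 1) ∘ ... ∘ R (n + k - 1)` -/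
def opProdFrom {X : Type*} [NormedAddCommGroup X] [NormedSpace ℂ X] (R : ℕ → X →L[ℂ] X) :
    ℕ → ℕ → X →L[ℂ] X
  | _, 0 => ContinuousLinearMap.id ℂ X
  | n, k + 1 => (R n).comp (opProdFrom R (n + 1) k)

theorem norm_opProdFrom_apply_le (R : ℕ → X →L[ℂ] X) (hR : ∀ n, ‖R n‖ ≤ 1) (n k : ℕ) (x : X) :
    ‖opProdFrom R n k x‖ ≤ ‖x‖ := by
  induction k generalizing n with
  | zero => exact le_rfl
  | succ k ih =>
    change ‖R n (opProdFrom R (n + 1) k x)‖ ≤ ‖x‖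
    calc ‖R n (opProdFrom R (n + 1) k x)‖ ≤ ‖R n‖ * ‖opProdFrom R (n + 1) k x‖ :=
          (R n).le_opNorm _
      _ ≤ 1 * ‖x‖ := by
          gcongr
          · exact hR n
          · exact ih (n + 1)
      _ = ‖x‖ := one_mul _

/-- scaled image of an element of the separating space -/
theorem exists_large (f : X →ₗ[ℂ] Y) (L : Y →L[ℂ] ℂ) (s : Y) (hs : s ∈ sep f) (hL : L s ≠ 0)
    (ε C : ℝ) (hε : 0 < ε) : ∃ x : X, ‖x‖ ≤ ε ∧ C ≤ ‖L (f x)‖ := by
  -- scale
  obtain ⟨lam, hlam⟩ : ∃ lam : ℝ, 0 < lam ∧ C + 1 ≤ lam * ‖L s‖ := by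
    have h1 : 0 < ‖L s‖ := norm_pos_iff.2 hL
    refine ⟨(|C| + 1) / ‖L s‖, by positivity, ?_⟩
    rw [div_mul_cancel₀ _ h1.ne']
    linarith [le_abs_self C]
  obtain ⟨hlam0, hlam⟩ := hlam
  obtain ⟨u, hu, hu'⟩ := hs
  have h2 : Tendsto (fun n => ‖((lam : ℂ)) • u n‖) atTop (𝓝 0) := by
    have := (hu.const_smul (lam : ℂ)).norm
    simpa using this
  have h3 : Tendsto (fun n => ‖L (f ((lam : ℂ) • u n))‖) atTop (𝓝 (lam * ‖L s‖)) := by
    have h4 := ((L.continuous.tendsto s).comp hu').const_smul (lam : ℂ)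
    have h5 := h4.norm
    have h6 : ‖(lam : ℂ) • L s‖ = lam * ‖L s‖ := by
      rw [norm_smul, Complex.norm_real, Real.norm_of_nonneg hlam0.le]
    rw [h6] at h5
    refine h5.congr fun n => ?_
    simp
  have h7 : ∀ᶠ n in atTop, ‖((lam : ℂ)) • u n‖ < ε := h2.eventually (gt_mem_nhds hε)
  have h8 : ∀ᶠ n in atTop, C < ‖L (f ((lam : ℂ) • u n))‖ :=
    h3.eventually (lt_mem_nhds (by linarith))
  obtain ⟨n, h7, h8⟩ := (h7.and h8).exists
  exact ⟨_, h7.le, h8.le⟩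

variable [CompleteSpace X] [CompleteSpace Y]

/-- Stability lemma for contractions `R n`. -/
theorem stability_aux (f : X →ₗ[ℂ] Y) (R : ℕ → X →L[ℂ] X) (T : ℕ → Y →L[ℂ] Y)
    (hR : ∀ n, ‖R n‖ ≤ 1)
    (h : ∀ n x, f (R n x) = T n (f x)) (S : ℕ → Y →L[ℂ] ℂ)
    (h0 : ∀ n, ∀ s ∈ sep f, S n (opProd T (n + 1) s) = 0)
    (h1 : ∀ n, ∃ s ∈ sep f, S n (opProd T n s) ≠ 0) : False := by
  -- the continuous functionals
  have hg : ∀ n, ∃ C : ℝ, 0 ≤ C ∧ ∀ x, ‖S n (opProd T (n + 1) (f x))‖ ≤ C * ‖x‖ := by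
    intro n
    have hc : Continuous fun x => ((S n).comp (opProd T (n + 1))) (f x) :=
      continuous_comp f ((S n).comp (opProd T (n + 1))) (fun s hs => h0 n s hs)
    let g : X →L[ℂ] ℂ :=
      { toLinearMap := (((S n).comp (opProd T (n + 1)) : Y →L[ℂ] ℂ) : Y →ₗ[ℂ] ℂ) ∘ₗ f
        cont := hc }
    refine ⟨‖g‖, norm_nonneg _, fun x => ?_⟩
    exact g.le_opNorm x
  choose C hC0 hC using hg
  -- the humps
  have hp : ∀ (n : ℕ) (y : X), ∃ x : X, ‖x‖ ≤ (1 / 2) ^ (n + 1) ∧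
      n * (‖S n‖ + 1) + C n + ‖S n (f y)‖ ≤ ‖S n (opProd T n (f x))‖ := by
    intro n y
    obtain ⟨s, hs, hs'⟩ := h1 n
    exact exists_large f ((S n).comp (opProd T n)) s hs hs' _ _ (by positivity)
  choose p hp1 hp2 using hp
  let y : ℕ → X := fun n => Nat.rec (0 : X) (fun n yn => yn + opProd R n (p n yn)) n
  have hy0 : y 0 = 0 := rfl
  have hys : ∀ n, y (n + 1) = y n + opProd R n (p n (y n)) := fun n => rfl
  let x : ℕ → X := fun n => p n (y n)
  have hx : ∀ n, ‖x n‖ ≤ (1 / 2) ^ (n + 1) := fun n => hp1 n _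
  have hsum : ∀ n, Summable fun k => opProdFrom R n k (x (n + k)) := by
    intro n
    refine Summable.of_norm_bounded (g := fun k : ℕ => ((1 : ℝ) / 2) ^ k) ?_ (fun k => ?_)
    · exact summable_geometric_of_lt_one (by norm_num) (by norm_num)
    · calc ‖opProdFrom R n k (x (n + k))‖ ≤ ‖x (n + k)‖ := norm_opProdFrom_apply_le R hR _ _ _
        _ ≤ (1 / 2) ^ (n + k + 1) := hx _
        _ ≤ (1 / 2) ^ k := by
          apply pow_le_pow_of_le_one (by norm_num) (by norm_num)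
          omega
  let w : ℕ → X := fun n => ∑' k, opProdFrom R n k (x (n + k))
  have hw : ∀ n, w n = x n + R n (w (n + 1)) := by
    intro n
    have h2 : w n = opProdFrom R n 0 (x (n + 0)) +
        ∑' k, opProdFrom R n (k + 1) (x (n + (k + 1))) := (hsum n).tsum_eq_zero_add
    rw [h2]
    congr 1
    change _ = R n (∑' k, opProdFrom R (n + 1) k (x (n + 1 + k)))
    rw [(R n).map_tsum (hsum (n + 1))]
    refine tsum_congr fun k => ?_
    change R n (opProdFrom R (n + 1) k (x (n + (k + 1)))) = _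
    rw [show n + (k + 1) = n + 1 + k by ring]
  have hwn : ∀ n, ‖w n‖ ≤ 1 := by
    intro n
    have h3 : HasSum (fun k : ℕ => (1 / 2 : ℝ) ^ (k + 1)) 1 := by
      have h5 := (hasSum_geometric_two).mul_left (1 / 2 : ℝ)
      rw [show (1 / 2 : ℝ) * 2 = 1 by norm_num] at h5
      have h6 : (fun k : ℕ => (1 / 2 : ℝ) ^ (k + 1)) = fun k : ℕ => 1 / 2 * (1 / 2 : ℝ) ^ k := by
        funext k
        rw [pow_succ, mul_comm]
      rw [h6]
      exact h5
    refine tsum_of_norm_bounded h3 (fun k => ?_)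
    calc ‖opProdFrom R n k (x (n + k))‖ ≤ ‖x (n + k)‖ := norm_opProdFrom_apply_le R hR _ _ _
      _ ≤ (1 / 2) ^ (n + k + 1) := hx _
      _ ≤ (1 / 2) ^ (k + 1) := by
        apply pow_le_pow_of_le_one (by norm_num) (by norm_num)
        omega
  have hdec : ∀ n, w 0 = y n + opProd R n (w n) := by
    intro n
    induction n with
    | zero => rw [hy0, zero_add]; rfl
    | succ n ih =>
      rw [ih, hys, opProd_succ_apply, add_assoc, ← map_add, ← hw n]
  -- the contradiction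
  obtain ⟨n, hn⟩ := exists_nat_gt ‖f (w 0)‖
  have h4 : S n (f (w 0)) = S n (f (y n)) + S n (opProd T n (f (x n))) +
      S n (opProd T (n + 1) (f (w (n + 1)))) := by
    conv_lhs => rw [hdec n, hw n]
    rw [map_add, map_add, map_add, map_add, map_add, ← opProd_succ_apply,
      map_opProd f R T h, map_opProd f R T h, ← add_assoc]
  have h5 : ‖S n (f (w 0))‖ ≤ ‖S n‖ * ‖f (w 0)‖ := (S n).le_opNorm _
  have h6 : ‖S n (opProd T (n + 1) (f (w (n + 1))))‖ ≤ C n := by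
    calc ‖S n (opProd T (n + 1) (f (w (n + 1))))‖ ≤ C n * ‖w (n + 1)‖ := hC n _
      _ ≤ C n * 1 := by
        gcongr
        · exact hC0 n
        · exact hwn _
      _ = C n := mul_one _
  have h7 : n * (‖S n‖ + 1) + C n + ‖S n (f (y n))‖ ≤ ‖S n (opProd T n (f (x n)))‖ :=
    hp2 n (y n)
  have h8 : ‖S n (opProd T n (f (x n)))‖ ≤ ‖S n (f (w 0))‖ + ‖S n (f (y n))‖ +
      ‖S n (opProd T (n + 1) (f (w (n + 1))))‖ := by
    have h9 : S n (opProd T n (f (x n))) = S n (f (w 0)) - S n (f (y n)) -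
        S n (opProd T (n + 1) (f (w (n + 1)))) := by
      rw [h4]; ring
    rw [h9]
    calc _ ≤ ‖S n (f (w 0)) - S n (f (y n))‖ + ‖S n (opProd T (n + 1) (f (w (n + 1))))‖ :=
          norm_sub_le _ _
      _ ≤ _ := by
          gcongr
          exact norm_sub_le _ _
  have h10 : (n : ℝ) * (‖S n‖ + 1) ≤ ‖S n‖ * ‖f (w 0)‖ := by linarith
  have h11 : ‖S n‖ * ‖f (w 0)‖ ≤ ‖S n‖ * n := by
    gcongr
  have h12 : (0 : ℝ) < n := lt_of_le_of_lt (norm_nonneg _) hn
  nlinarith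

/-- Stability lemma, contrapositive form: if `f ∘ R n = T n ∘ f` there are no functionals `S n`
which vanish on `T 0 ... T n (sep f)` but not on `T 0 ... T (n - 1) (sep f)`. -/
theorem stability (f : X →ₗ[ℂ] Y) (R : ℕ → X →L[ℂ] X) (T : ℕ → Y →L[ℂ] Y)
    (h : ∀ n x, f (R n x) = T n (f x)) (S : ℕ → Y →L[ℂ] ℂ)
    (h0 : ∀ n, ∀ s ∈ sep f, S n (opProd T (n + 1) s) = 0)
    (h1 : ∀ n, ∃ s ∈ sep f, S n (opProd T n s) ≠ 0) : False := by
  let c : ℕ → ℂ := fun n => ((‖R n‖ + 1 : ℝ) : ℂ)⁻¹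
  have hc : ∀ n, c n ≠ 0 := fun n => by
    have : (0 : ℝ) < ‖R n‖ + 1 := by positivity
    simp only [c, ne_eq, inv_eq_zero]
    exact_mod_cast this.ne'
  have hprod : ∀ n, ∃ d : ℂ, d ≠ 0 ∧ opProd (fun n => c n • T n) n = d • opProd T n := by
    intro n
    induction n with
    | zero => exact ⟨1, one_ne_zero, by rw [one_smul]; rfl⟩
    | succ n ih =>
      obtain ⟨d, hd, hd'⟩ := ih
      refine ⟨d * c n, mul_ne_zero hd (hc n), ?_⟩
      ext y
      change opProd (fun n => c n • T n) n (c n • T n y) = (d * c n) • opProd T n (T n y)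
      rw [hd', map_smul, smul_apply, smul_smul, mul_comm]
  refine stability_aux f (fun n => c n • R n) (fun n => c n • T n) (fun n => ?_) (fun n x => ?_) S
    (fun n s hs => ?_) (fun n => ?_)
  · rw [norm_smul]
    simp only [c]
    rw [norm_inv, Complex.norm_real, Real.norm_of_nonneg (by positivity), inv_mul_le_iff₀ (by positivity)]
    linarith
  · rw [smul_apply, smul_apply, map_smul, h]
  · obtain ⟨d, hd, hd'⟩ := hprod (n + 1)
    rw [hd', smul_apply, map_smul, h0 n s hs, smul_zero]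
  · obtain ⟨d, hd, hd'⟩ := hprod n
    obtain ⟨s, hs, hs'⟩ := h1 n
    refine ⟨s, hs, ?_⟩
    rw [hd', smul_apply, map_smul]
    exact smul_ne_zero hd hs'

end

end Pool.Agent.Lib.MP_1185bc_an
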