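import Pool.Agent.Lib.MP_1185bc_an.Chain
import Pool.Agent.Lib.MP_1185bc_an.Loc
import Pool.Agent.Lib.MP_1185bc_an.Quot

/-!
# MP_1185bc_an: from semiprime algebras to algebras without zero divisors
-/

set_option autoImplicit false

open Filter Topology

namespace Pool.Agent.Lib.MP_1185bc_an

universe u

section
variable {B A : Type u}
  [NonUnitalNormedRing B] [NormedSpace ℂ B] [IsScalarTower ℂ B B] [SMulCommClass ℂ B B]
  [CompleteSpace B]
  [NonUnitalNormedRing A] [NormedSpace ℂ A] [IsScalarTower ℂ A A] [SMulCommClass ℂ A A]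
  [CompleteSpace A]

/-- The choice of the element `p`. -/
theorem exists_p (θ : B →ₙₐ[ℂ] A) (hθ : Function.Surjective θ) (H : A → Prop)
    (hH : ∀ p a : A, H p → H (p * a))
    (h : ∃ p : A, H p ∧ ∃ s ∈ sep (toLin θ), p * s ≠ 0) :
    ∃ p : A, H p ∧ (∃ s ∈ sep (toLin θ), p * s ≠ 0) ∧
      ∀ b a : A, (∀ s ∈ sep (toLin θ), b * p * a * s = 0) →
        (∀ s ∈ sep (toLin θ), b * p * s = 0) ∨ (∀ s ∈ sep (toLin θ), p * a * s = 0) := by
  by_contra hcon
  push Not at hcon
  obtain ⟨p, hp⟩ := h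
  refine chain_left θ hθ (fun p => H p ∧ ∃ s ∈ sep (toLin θ), p * s ≠ 0) (fun p hp => ?_) p hp
  obtain ⟨b, a, h1, ⟨s, hs, h2⟩, t, ht, h3⟩ := hcon p hp.1 hp.2
  obtain ⟨ψ, hψ⟩ := SeparatingDual.exists_ne_zero (R := ℂ) h2
  refine ⟨a, ψ.comp (ContinuousLinearMap.mul ℂ A b), ⟨hH p a hp.1, t, ht, h3⟩,
    fun s' hs' => ?_, s, hs, ?_⟩
  · rw [ContinuousLinearMap.comp_apply, ContinuousLinearMap.mul_apply', ← mul_assoc, ← mul_assoc,
      h1 s' hs', map_zero]
  · rwa [ContinuousLinearMap.comp_apply, ContinuousLinearMap.mul_apply', ← mul_assoc]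

/-- Scaling. -/
theorem exists_scaled (θ : B →ₙₐ[ℂ] A) (hθ : Function.Surjective θ) (p : A) :
    ∃ c : ℂ, c ≠ 0 ∧ ‖c • p‖ ≤ 1 ∧ ∃ b : B, ‖b‖ ≤ 1 ∧ θ b = c • p := by
  obtain ⟨b, rfl⟩ := hθ p
  have h0 : (0 : ℝ) < 1 + ‖b‖ + ‖θ b‖ := by positivity
  refine ⟨((1 + ‖b‖ + ‖θ b‖ : ℝ) : ℂ)⁻¹, ?_, ?_, ((1 + ‖b‖ + ‖θ b‖ : ℝ) : ℂ)⁻¹ • b, ?_, ?_⟩
  · simp only [ne_eq, inv_eq_zero]
    exact_mod_cast h0.ne'
  · rw [norm_smul, norm_inv, Complex.norm_real, Real.norm_of_nonneg h0.le, inv_mul_le_iff₀ h0]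
    linarith [norm_nonneg b]
  · rw [norm_smul, norm_inv, Complex.norm_real, Real.norm_of_nonneg h0.le, inv_mul_le_iff₀ h0]
    linarith [norm_nonneg (θ b)]
  · rw [map_smul]

/-- The induced homomorphism of local algebras. -/
noncomputable def locHom {L M : Type u} [NonUnitalNormedRing L] [NormedSpace ℂ L]
    [NonUnitalNormedRing M] [NormedSpace ℂ M] (θ : B →ₙₐ[ℂ] A) (b : B) (p : A) (hb : θ b = p)
    (e : B ≃ₗᵢ[ℂ] L) (e' : A ≃ₗᵢ[ℂ] M) (he : ∀ x y, e (x * b * y) = e x * e y)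
    (he' : ∀ x y, e' (x * p * y) = e' x * e' y) : L →ₙₐ[ℂ] M where
  toFun := fun x => e' (θ (e.symm x))
  map_smul' := fun c x => by
    rw [map_smul, map_smul, map_smul]
    rfl
  map_zero' := by rw [map_zero, map_zero, map_zero]
  map_add' := fun x y => by rw [map_add, map_add, map_add]
  map_mul' := fun x y => by
    have h1 : x * y = e (e.symm x * b * e.symm y) := by
      rw [he, e.apply_symm_apply, e.apply_symm_apply]
    have h2 : θ (e.symm x * b * e.symm y) = θ (e.symm x) * p * θ (e.symm y) := by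
      rw [map_mul, map_mul, hb]
    rw [h1, e.symm_apply_apply, h2, he']

theorem locHom_apply {L M : Type u} [NonUnitalNormedRing L] [NormedSpace ℂ L]
    [NonUnitalNormedRing M] [NormedSpace ℂ M] (θ : B →ₙₐ[ℂ] A) (b : B) (p : A) (hb : θ b = p)
    (e : B ≃ₗᵢ[ℂ] L) (e' : A ≃ₗᵢ[ℂ] M) (he : ∀ x y, e (x * b * y) = e x * e y)
    (he' : ∀ x y, e' (x * p * y) = e' x * e' y) (x : L) :
    locHom θ b p hb e e' he he' x = e' (θ (e.symm x)) := rfl

theorem locHom_surjective {L M : Type u} [NonUnitalNormedRing L] [NormedSpace ℂ L]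
    [NonUnitalNormedRing M] [NormedSpace ℂ M] (θ : B →ₙₐ[ℂ] A) (hθ : Function.Surjective θ)
    (b : B) (p : A) (hb : θ b = p)
    (e : B ≃ₗᵢ[ℂ] L) (e' : A ≃ₗᵢ[ℂ] M) (he : ∀ x y, e (x * b * y) = e x * e y)
    (he' : ∀ x y, e' (x * p * y) = e' x * e' y) :
    Function.Surjective (locHom θ b p hb e e' he he') := by
  intro y
  obtain ⟨x, hx⟩ := hθ (e'.symm y)
  refine ⟨e x, ?_⟩
  rw [locHom_apply, e.symm_apply_apply, hx, e'.apply_symm_apply]

theorem mem_sep_locHom {L M : Type u} [NonUnitalNormedRing L] [NormedSpace ℂ L]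
    [NonUnitalNormedRing M] [NormedSpace ℂ M] (θ : B →ₙₐ[ℂ] A)
    (b : B) (p : A) (hb : θ b = p)
    (e : B ≃ₗᵢ[ℂ] L) (e' : A ≃ₗᵢ[ℂ] M) (he : ∀ x y, e (x * b * y) = e x * e y)
    (he' : ∀ x y, e' (x * p * y) = e' x * e' y) (s : A) :
    e' s ∈ sep (toLin (locHom θ b p hb e e' he he')) ↔ s ∈ sep (toLin θ) := by
  constructor
  · rintro ⟨x, hx, hx'⟩
    refine ⟨fun n => e.symm (x n), ?_, ?_⟩
    · have := (e.symm.continuous.tendsto 0).comp hx
      rwa [map_zero] at this
    · have h1 := (e'.symm.continuous.tendsto _).comp hx'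
      rw [e'.symm_apply_apply] at h1
      refine h1.congr fun n => ?_
      change e'.symm (e' (θ (e.symm (x n)))) = θ (e.symm (x n))
      rw [e'.symm_apply_apply]
  · rintro ⟨x, hx, hx'⟩
    refine ⟨fun n => e (x n), ?_, ?_⟩
    · have := (e.continuous.tendsto 0).comp hx
      rwa [map_zero] at this
    · have h1 := (e'.continuous.tendsto _).comp hx'
      refine h1.congr fun n => ?_
      change e' (θ (x n)) = e' (θ (e.symm (e (x n))))
      rw [e.symm_apply_apply]

/-- The ideal of the local algebra by which one divides. -/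
def quotIdeal (p : A) (S : Submodule ℂ A) : Submodule ℂ A where
  carrier := {x | ∀ s ∈ S, p * x * p * s = 0}
  add_mem' := by
    intro x y hx hy s hs
    rw [mul_add, add_mul, add_mul, hx s hs, hy s hs, add_zero]
  zero_mem' := by
    intro s _
    rw [mul_zero, zero_mul, zero_mul]
  smul_mem' := by
    intro c x hx s hs
    rw [mul_smul_comm, smul_mul_assoc, smul_mul_assoc, hx s hs, smul_zero]

theorem isClosed_quotIdeal (p : A) (S : Submodule ℂ A) : IsClosed (quotIdeal p S : Set A) := by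
  have h : (quotIdeal p S : Set A) = ⋂ s ∈ S, {x | p * x * p * s = 0} := by
    ext x
    simp only [Set.mem_iInter, Set.mem_ofPred_eq]
    rfl
  rw [h]
  refine isClosed_biInter fun s _ => ?_
  exact isClosed_eq (by fun_prop) continuous_const

end

/-- Compactness passes to quotients. -/
theorem isCompactOperator_of_comp {X Y Z : Type*} [TopologicalSpace X] [Zero X]
    [TopologicalSpace Y] [Zero Y] [TopologicalSpace Z] (f : Y → Z) (Q : X → Y) (hQ : IsOpenMap Q)
    (hQ0 : Q 0 = 0) (h : IsCompactOperator (fun x => f (Q x))) : IsCompactOperator f := by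
  obtain ⟨K, hK, hK'⟩ := h
  refine ⟨K, hK, ?_⟩
  have h1 := hQ.image_mem_nhds hK'
  rw [hQ0] at h1
  refine Filter.mem_of_superset h1 ?_
  rintro _ ⟨x, hx, rfl⟩
  exact hx

/-- Step A: a discontinuous epimorphism onto a semiprime algebra gives one onto an algebra
without zero divisors. -/
theorem stepA_core (B A : Type u)
    [NonUnitalNormedRing B] [NormedSpace ℂ B] [IsScalarTower ℂ B B] [SMulCommClass ℂ B B]
    [CompleteSpace B]
    [NonUnitalNormedRing A] [NormedSpace ℂ A] [IsScalarTower ℂ A A] [SMulCommClass ℂ A A]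
    [CompleteSpace A] (hA : IsSemiprime A)
    (θ : B →ₙₐ[ℂ] A) (hθ : Function.Surjective θ) (p₀ : A)
    (hps₀' : ∃ s ∈ sep (toLin θ), p₀ * s ≠ 0)
    (hp₀ : ∀ b a : A, (∀ s ∈ sep (toLin θ), b * p₀ * a * s = 0) →
        (∀ s ∈ sep (toLin θ), b * p₀ * s = 0) ∨ (∀ s ∈ sep (toLin θ), p₀ * a * s = 0)) :
    ∃ (B' D : Type u) (_ : NonUnitalNormedRing B') (_ : NormedSpace ℂ B')
      (_ : IsScalarTower ℂ B' B') (_ : SMulCommClass ℂ B' B') (_ : CompleteSpace B')
      (_ : NonUnitalNormedRing D) (_ : NormedSpace ℂ D)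
      (_ : IsScalarTower ℂ D D) (_ : SMulCommClass ℂ D D) (_ : CompleteSpace D)
      (θ' : B' →ₙₐ[ℂ] D), NoZeroDiv D ∧ Function.Surjective θ' ∧ ¬ Continuous θ' ∧
        (IsCompactOperator (fun x : A => p₀ * x * p₀) →
          ∀ a b : D, IsCompactOperator (fun x : D => a * x * b)) := by
  obtain ⟨s₀, hs₀, hps₀⟩ := hps₀'
  obtain ⟨c, hc, hcp, b, hb1, hb⟩ := exists_scaled θ hθ p₀
  obtain ⟨p, hp⟩ : ∃ p, p = c • p₀ := ⟨_, rfl⟩
  rw [← hp] at hcp hb
  have hps : p * s₀ ≠ 0 := by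
    rw [hp, smul_mul_assoc]
    exact smul_ne_zero hc hps₀
  have hpp : ∀ b a : A, (∀ s ∈ sep (toLin θ), b * p * a * s = 0) →
      (∀ s ∈ sep (toLin θ), b * p * s = 0) ∨ (∀ s ∈ sep (toLin θ), p * a * s = 0) := by
    intro b a h
    have h2 : ∀ s ∈ sep (toLin θ), b * p₀ * a * s = 0 := by
      intro s hs
      have := h s hs
      rw [hp, mul_smul_comm, smul_mul_assoc, smul_mul_assoc] at this
      exact (smul_eq_zero.1 this).resolve_left hc
    rcases hp₀ b a h2 with h3 | h3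
    · left
      intro s hs
      rw [hp, mul_smul_comm, smul_mul_assoc, h3 s hs, smul_zero]
    · right
      intro s hs
      rw [hp, smul_mul_assoc, smul_mul_assoc, h3 s hs, smul_zero]
  clear hp₀ hps₀
  have hcomp : IsCompactOperator (fun x : A => p₀ * x * p₀) →
      IsCompactOperator (fun x : A => p * x * p) := by
    intro h
    have h1 : (fun x : A => p * x * p) = (c * c) • (fun x : A => p₀ * x * p₀) := by
      funext x
      rw [Pi.smul_apply, hp, smul_mul_assoc, smul_mul_assoc, mul_smul_comm, smul_smul]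
    rw [h1]
    exact h.smul (c * c)
  obtain ⟨L, i1, i2, i3, i4, i5, e, he⟩ := exists_loc B b hb1
  obtain ⟨M, j1, j2, j3, j4, j5, e', he'⟩ := exists_loc A p hcp
  let N : Submodule ℂ M := (quotIdeal p (sep (toLin θ))).map (e'.toLinearEquiv : A →ₗ[ℂ] M)
  have hNmem : ∀ x : A, e' x ∈ N ↔ ∀ s ∈ sep (toLin θ), p * x * p * s = 0 := by
    intro x
    constructor
    · rintro ⟨y, hy, hxy⟩
      have : y = x := e'.injective hxy
      rw [← this]
      exact hy
    · intro h
      exact ⟨x, h, rfl⟩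
  have hN : ClosedIdeal N := by
    constructor
    · have : (N : Set M) = e'.symm ⁻¹' (quotIdeal p (sep (toLin θ)) : Set A) := by
        ext y
        obtain ⟨x, rfl⟩ := e'.surjective y
        rw [Set.mem_preimage, e'.symm_apply_apply]
        exact hNmem x
      rw [this]
      exact (isClosed_quotIdeal p _).preimage e'.symm.continuous
    · intro a x hx
      obtain ⟨a, rfl⟩ := e'.surjective a
      obtain ⟨x, rfl⟩ := e'.surjective x
      rw [hNmem] at hx
      rw [← he', ← he', hNmem, hNmem]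
      constructor
      · intro s hs
        have h3 : p * (a * p * x) * p * s = p * a * (p * x * p * s) := by
          simp only [mul_assoc]
        rw [h3, hx s hs, mul_zero]
      · intro s hs
        have h3 : p * (x * p * a) * p * s = p * x * p * (a * (p * s)) := by
          simp only [mul_assoc]
        rw [h3]
        exact hx _ (mul_mem_sep θ hθ a (mul_mem_sep θ hθ p hs))
  obtain ⟨D, k1, k2, k3, k4, k5, q, hq, hqc, hqN⟩ := exists_quot M N hN
  refine ⟨L, D, i1, i2, i3, i4, i5, k1, k2, k3, k4, k5,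
    q.comp (locHom θ b p hb e e' he he'), ?_, ?_, ?_, ?_⟩
  · intro x y hxy
    obtain ⟨x, rfl⟩ := hq x
    obtain ⟨y, rfl⟩ := hq y
    obtain ⟨x, rfl⟩ := e'.surjective x
    obtain ⟨y, rfl⟩ := e'.surjective y
    rw [← map_mul, hqN, ← he', hNmem] at hxy
    rw [hqN, hqN, hNmem, hNmem]
    have h4 := hpp (p * x) (y * p) (fun s hs => by
      have := hxy s hs
      rw [← this]
      simp only [mul_assoc])
    rcases h4 with h4 | h4
    · left
      exact h4
    · right
      intro s hs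
      rw [mul_assoc p y p]
      exact h4 s hs
  · rw [NonUnitalAlgHom.coe_comp]
    exact hq.comp (locHom_surjective θ hθ b p hb e e' he he')
  · intro hcont
    -- an element of the separating space outside `N`
    have h5 : ∃ s ∈ sep (toLin θ), ∃ t ∈ sep (toLin θ), p * s * p * t ≠ 0 := by
      by_contra hcon
      push Not at hcon
      apply hps
      apply hA
      intro x
      have h6 := hcon (s₀ * x) (mem_sep_mul θ hθ x hs₀) s₀ hs₀
      rw [← h6]
      simp only [mul_assoc]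
    obtain ⟨s, hs, t, ht, hst⟩ := h5
    have h7 : e' s ∈ sep (toLin (locHom θ b p hb e e' he he')) :=
      (mem_sep_locHom θ b p hb e e' he he' s).2 hs
    obtain ⟨x, hx, hx'⟩ := h7
    have h8 : Tendsto (fun n => q (locHom θ b p hb e e' he he' (x n))) atTop (𝓝 (q (e' s))) :=
      (hqc.tendsto _).comp hx'
    have h9 : Tendsto (fun n => (q.comp (locHom θ b p hb e e' he he')) (x n)) atTop
        (𝓝 ((q.comp (locHom θ b p hb e e' he he')) 0)) := (hcont.tendsto 0).comp hx
    rw [map_zero] at h9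
    have h10 : q (e' s) = 0 := tendsto_nhds_unique h8 h9
    rw [hqN, hNmem] at h10
    exact hst (h10 t ht)
  · intro hpc
    have hpc := hcomp hpc
    intro x y
    obtain ⟨x, rfl⟩ := hq x
    obtain ⟨y, rfl⟩ := hq y
    obtain ⟨x, rfl⟩ := e'.surjective x
    obtain ⟨y, rfl⟩ := e'.surjective y
    obtain ⟨Q, hQ⟩ : ∃ Q : A →L[ℂ] D, ∀ z, Q z = q (e' z) :=
      ⟨⟨(toLin q).comp (e'.toLinearEquiv : A →ₗ[ℂ] M), hqc.comp e'.continuous⟩, fun z => rfl⟩
    have hQs : Function.Surjective Q := by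
      intro z
      obtain ⟨z, rfl⟩ := hq z
      obtain ⟨z, rfl⟩ := e'.surjective z
      exact ⟨z, hQ z⟩
    refine isCompactOperator_of_comp _ Q (Q.isOpenMap hQs) (map_zero Q) ?_
    have h1 : (fun z : A => q (e' x) * Q z * q (e' y)) =
        (fun z : A => Q (x * z * y)) ∘ (fun z : A => p * z * p) := by
      funext z
      rw [Function.comp_apply, hQ, hQ, ← map_mul, ← map_mul, ← he', ← he']
      simp only [mul_assoc]
    rw [h1]
    exact hpc.continuous_comp (by fun_prop)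

theorem stepA (B A : Type u)
    [NonUnitalNormedRing B] [NormedSpace ℂ B] [IsScalarTower ℂ B B] [SMulCommClass ℂ B B]
    [CompleteSpace B]
    [NonUnitalNormedRing A] [NormedSpace ℂ A] [IsScalarTower ℂ A A] [SMulCommClass ℂ A A]
    [CompleteSpace A] (hA : IsSemiprime A)
    (θ : B →ₙₐ[ℂ] A) (hθ : Function.Surjective θ) (hd : ¬ Continuous θ) :
    ∃ (B' D : Type u) (_ : NonUnitalNormedRing B') (_ : NormedSpace ℂ B')
      (_ : IsScalarTower ℂ B' B') (_ : SMulCommClass ℂ B' B') (_ : CompleteSpace B')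
      (_ : NonUnitalNormedRing D) (_ : NormedSpace ℂ D)
      (_ : IsScalarTower ℂ D D) (_ : SMulCommClass ℂ D D) (_ : CompleteSpace D)
      (θ' : B' →ₙₐ[ℂ] D), NoZeroDiv D ∧ Function.Surjective θ' ∧ ¬ Continuous θ' := by
  -- the separating space is nonzero
  have h0 : ∃ s ∈ sep (toLin θ), s ≠ 0 := by
    by_contra hcon
    push Not at hcon
    apply hd
    exact continuous_of_sep_eq_bot (toLin θ) ((Submodule.eq_bot_iff _).2 hcon)
  have h1 : ∃ p : A, True ∧ ∃ s ∈ sep (toLin θ), p * s ≠ 0 := by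
    by_contra hcon
    push Not at hcon
    obtain ⟨s, hs, hs0⟩ := h0
    apply hs0
    apply hA
    intro x
    rw [mul_assoc]
    exact hcon s trivial (x * s) (mul_mem_sep θ hθ x hs)
  obtain ⟨p₀, -, hps₀, hp₀⟩ := exists_p θ hθ (fun _ => True) (fun _ _ _ => trivial) h1
  obtain ⟨B', D, i1, i2, i3, i4, i5, j1, j2, j3, j4, j5, θ', h2, h3, h4, -⟩ :=
    stepA_core B A hA θ hθ p₀ hps₀ hp₀
  exact ⟨B', D, i1, i2, i3, i4, i5, j1, j2, j3, j4, j5, θ', h2, h3, h4⟩

end Pool.Agent.Lib.MP_1185bc_an
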