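import Pool.Agent.Lib.MP_1185bc_an.StepA
import Pool.Agent.Lib.MP_1185bc_an.Rad
import Pool.Agent.Lib.MP_1185bc_an.Lom

/-!
# MP_1185bc_an: from algebras without zero divisors to special algebras
-/

set_option autoImplicit false

open Filter Topology

namespace Pool.Agent.Lib.MP_1185bc_an

universe u

section
variable {B D : Type u}
  [NonUnitalNormedRing B] [NormedSpace ℂ B] [IsScalarTower ℂ B B] [SMulCommClass ℂ B B]
  [CompleteSpace B]
  [NonUnitalNormedRing D] [NormedSpace ℂ D] [IsScalarTower ℂ D D] [SMulCommClass ℂ D D]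
  [CompleteSpace D]

theorem exists_left (θ : B →ₙₐ[ℂ] D) (hθ : Function.Surjective θ) (hD : NoZeroDiv D)
    (h0 : ∃ s : D, s ≠ 0) :
    ∃ p : D, p ≠ 0 ∧ ∀ a : D, a ≠ 0 → ∀ s ∈ sep (toLin θ),
      p * s ∈ closure ((fun x => p * a * x) '' (sep (toLin θ) : Set D)) := by
  by_contra hcon
  push Not at hcon
  obtain ⟨p, hp⟩ := h0
  refine chain_left θ hθ (fun p => p ≠ 0) (fun p hp => ?_) p hp
  obtain ⟨a, ha, s, hs, h1⟩ := hcon p hp
  obtain ⟨φ, h2, h3⟩ := exists_functional ((sep (toLin θ)).map (LinearMap.mulLeft ℂ (p * a)))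
    (p * s) (by
      rw [Submodule.map_coe]
      exact h1)
  refine ⟨a, φ, fun h => ?_, fun s' hs' => h2 _ ⟨s', hs', rfl⟩, s, hs, h3⟩
  rcases hD _ _ h with h4 | h4
  · exact hp h4
  · exact ha h4

theorem exists_right (θ : B →ₙₐ[ℂ] D) (hθ : Function.Surjective θ) (hD : NoZeroDiv D)
    (h0 : ∃ s : D, s ≠ 0) :
    ∃ q : D, q ≠ 0 ∧ ∀ a : D, a ≠ 0 → ∀ s ∈ sep (toLin θ),
      s * q ∈ closure ((fun x => x * a * q) '' (sep (toLin θ) : Set D)) := by
  by_contra hcon
  push Not at hcon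
  obtain ⟨p, hp⟩ := h0
  refine chain_right θ hθ (fun p => p ≠ 0) (fun p hp => ?_) p hp
  obtain ⟨a, ha, s, hs, h1⟩ := hcon p hp
  obtain ⟨φ, h2, h3⟩ := exists_functional ((sep (toLin θ)).map (LinearMap.mulRight ℂ (a * p)))
    (s * p) (by
      rw [Submodule.map_coe]
      intro h
      apply h1
      refine closure_mono ?_ h
      rintro _ ⟨x, hx, rfl⟩
      refine ⟨x, hx, ?_⟩
      change x * a * p = x * (a * p)
      rw [mul_assoc])
  refine ⟨a, φ, fun h => ?_, fun s' hs' => h2 _ ⟨s', hs', rfl⟩, s, hs, h3⟩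
  rcases hD _ _ h with h4 | h4
  · exact ha h4
  · exact hp h4

end

/-- Powers in a local algebra. -/
theorem pw_loc {A R : Type u} [NonUnitalNormedRing A] [NormedSpace ℂ A]
    [NonUnitalNormedRing R] [NormedSpace ℂ R] (t : A) (e : A ≃ₗᵢ[ℂ] R)
    (he : ∀ x y, e (x * t * y) = e x * e y) (u : A) (n : ℕ) :
    pw (e u) (n + 1) = e (u * pw (t * u) n) := by
  induction n with
  | zero =>
    change e u * e u = e (u * (t * u))
    rw [← he, mul_assoc]
  | succ n ih =>
    change pw (e u) (n + 1) * e u = e (u * (pw (t * u) n * (t * u)))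
    rw [ih, ← he]
    simp only [mul_assoc]

/-- Quasinilpotent elements of a local algebra. -/
theorem quasiNil_loc {A R : Type u} [NonUnitalNormedRing A] [NormedSpace ℂ A]
    [NonUnitalNormedRing R] [NormedSpace ℂ R] (t : A) (e : A ≃ₗᵢ[ℂ] R)
    (he : ∀ x y, e (x * t * y) = e x * e y) (u : A) (h : QuasiNil (t * u)) :
    QuasiNil (e u) := by
  refine rad3 _ fun ε hε => ?_
  have h1 : ∀ᶠ n : ℕ in atTop, ‖pw (t * u) n‖ ^ (1 / ((n : ℝ) + 1)) < ε / 2 :=
    h.eventually (gt_mem_nhds (half_pos hε))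
  have h2 : ∀ᶠ n : ℕ in atTop, ‖u‖ * (1 / 2 : ℝ) ^ (n + 1) < ε := by
    have h3 : Tendsto (fun n : ℕ => ‖u‖ * (1 / 2 : ℝ) ^ (n + 1)) atTop (𝓝 (‖u‖ * 0)) := by
      refine Tendsto.const_mul _ ?_
      exact (tendsto_pow_atTop_nhds_zero_of_lt_one (by norm_num) (by norm_num)).comp
        (tendsto_add_atTop_nat 1)
    rw [mul_zero] at h3
    exact h3.eventually (gt_mem_nhds hε)
  obtain ⟨n, h1, h2⟩ := (h1.and h2).exists
  refine ⟨n + 1, ?_⟩
  have h4 : ‖pw (t * u) n‖ ≤ (ε / 2) ^ (n + 1) := by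
    have h5 : (‖pw (t * u) n‖ ^ (1 / ((n : ℝ) + 1))) ^ (n + 1) = ‖pw (t * u) n‖ := by
      rw [← Real.rpow_natCast, ← Real.rpow_mul (norm_nonneg _)]
      push_cast
      rw [one_div_mul_cancel (by positivity), Real.rpow_one]
    rw [← h5]
    exact pow_le_pow_left₀ (by positivity) h1.le _
  rw [pw_loc t e he, LinearIsometryEquiv.norm_map]
  calc ‖u * pw (t * u) n‖ ≤ ‖u‖ * ‖pw (t * u) n‖ := norm_mul_le _ _
    _ ≤ ‖u‖ * (ε / 2) ^ (n + 1) := by gcongr
    _ = ‖u‖ * (1 / 2 : ℝ) ^ (n + 1) * ε ^ (n + 1) := by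
        rw [div_eq_mul_one_div ε 2, mul_pow]
        ring
    _ ≤ ε * ε ^ (n + 1) := by gcongr
    _ = ε ^ (n + 1 + 1) := by rw [pow_succ' ε (n + 1)]

/-- Step B: a discontinuous epimorphism onto an algebra without zero divisors gives one onto a
radical algebra without zero divisors, with the two closure properties. -/
theorem stepB (B D : Type u)
    [NonUnitalNormedRing B] [NormedSpace ℂ B] [IsScalarTower ℂ B B] [SMulCommClass ℂ B B]
    [CompleteSpace B]
    [NonUnitalNormedRing D] [NormedSpace ℂ D] [IsScalarTower ℂ D D] [SMulCommClass ℂ D D]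
    [CompleteSpace D] (hD : NoZeroDiv D)
    (θ : B →ₙₐ[ℂ] D) (hθ : Function.Surjective θ) (hd : ¬ Continuous θ) :
    ∃ (B' R : Type u) (_ : NonUnitalNormedRing B') (_ : NormedSpace ℂ B')
      (_ : IsScalarTower ℂ B' B') (_ : SMulCommClass ℂ B' B') (_ : CompleteSpace B')
      (_ : NonUnitalNormedRing R) (_ : NormedSpace ℂ R)
      (_ : IsScalarTower ℂ R R) (_ : SMulCommClass ℂ R R) (_ : CompleteSpace R)
      (θ' : B' →ₙₐ[ℂ] R), NoZeroDiv R ∧ (∀ x : R, QuasiNil x) ∧ Function.Surjective θ' ∧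
        (∃ s ∈ sep (toLin θ'), s ≠ 0) ∧
        (∀ u v : R, u ≠ 0 → v ≠ 0 → ∀ s ∈ sep (toLin θ'),
          u * s ∈ closure ((fun x => u * v * x) '' (sep (toLin θ') : Set R))) ∧
        (∀ u v : R, u ≠ 0 → v ≠ 0 → ∀ s ∈ sep (toLin θ'),
          s * u ∈ closure ((fun x => x * v * u) '' (sep (toLin θ') : Set R))) ∧
        ((∀ a b : D, IsCompactOperator (fun x : D => a * x * b)) →
          ∀ a b : R, IsCompactOperator (fun x : R => a * x * b)) := by
  obtain ⟨s₀, hs₀, hs₀'⟩ : ∃ s ∈ sep (toLin θ), s ≠ 0 := by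
    by_contra hcon
    push Not at hcon
    apply hd
    exact continuous_of_sep_eq_bot (toLin θ) ((Submodule.eq_bot_iff _).2 hcon)
  obtain ⟨p, hp0, hp⟩ := exists_left θ hθ hD ⟨s₀, hs₀'⟩
  obtain ⟨q, hq0, hq⟩ := exists_right θ hθ hD ⟨s₀, hs₀'⟩
  obtain ⟨c, hc, ht1, b, hb1, hb⟩ := exists_scaled θ hθ (q * s₀ * p)
  obtain ⟨t, ht⟩ : ∃ t, t = c • (q * s₀ * p) := ⟨_, rfl⟩
  rw [← ht] at ht1 hb
  have hwt : ∀ w : D, w * t = c • (w * (q * s₀ * p)) := by
    intro w
    rw [ht, mul_smul_comm]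
  have htS : t ∈ sep (toLin θ) := by
    rw [ht]
    exact Submodule.smul_mem _ _ (mem_sep_mul θ hθ p (mul_mem_sep θ hθ q hs₀))
  have ht0 : t ≠ 0 := by
    rw [ht]
    refine smul_ne_zero hc fun h => ?_
    rcases hD _ _ h with h1 | h1
    · rcases hD _ _ h1 with h2 | h2
      · exact hq0 h2
      · exact hs₀' h2
    · exact hp0 h1
  obtain ⟨L, i1, i2, i3, i4, i5, e, he⟩ := exists_loc B b hb1
  obtain ⟨R, j1, j2, j3, j4, j5, e', he'⟩ := exists_loc D t ht1
  have hmem : ∀ s : D, e' s ∈ sep (toLin (locHom θ b t hb e e' he he')) ↔ s ∈ sep (toLin θ) :=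
    fun s => mem_sep_locHom θ b t hb e e' he he' s
  have hsurj : Function.Surjective (locHom θ b t hb e e' he he') :=
    locHom_surjective θ hθ b t hb e e' he he'
  have hR : NoZeroDiv R := by
    intro x y hxy
    obtain ⟨x, rfl⟩ := e'.surjective x
    obtain ⟨y, rfl⟩ := e'.surjective y
    rw [← he'] at hxy
    have h1 : x * t * y = 0 := by
      apply e'.injective
      rw [hxy, map_zero]
    rcases hD _ _ h1 with h2 | h2
    · rcases hD _ _ h2 with h3 | h3
      · left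
        rw [h3, map_zero]
      · exact absurd h3 ht0
    · right
      rw [h2, map_zero]
  refine ⟨L, R, i1, i2, i3, i4, i5, j1, j2, j3, j4, j5, locHom θ b t hb e e' he he',
    hR, ?_, hsurj, ⟨e' s₀, (hmem _).2 hs₀, fun h => hs₀' ?_⟩, ?_, ?_, ?_⟩
  · intro x
    obtain ⟨x, rfl⟩ := e'.surjective x
    exact quasiNil_loc t e' he' x
      (quasiNil_of_mem_sep θ hθ (t * x) (mem_sep_mul θ hθ x htS))
  · apply e'.injective
    rw [h, map_zero]
  · intro x y _ hy s hs
    obtain ⟨x, rfl⟩ := e'.surjective x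
    obtain ⟨y, rfl⟩ := e'.surjective y
    obtain ⟨s, rfl⟩ := e'.surjective s
    rw [hmem] at hs
    have hyt : y * t ≠ 0 := by
      intro h
      rcases hD _ _ h with h1 | h1
      · apply hy
        rw [h1, map_zero]
      · exact ht0 h1
    have h1 := hp (y * t) hyt s hs
    have hF : Continuous fun z : D => e' (c • (x * q * s₀ * z)) :=
      e'.continuous.comp ((continuous_const.mul continuous_id).const_smul c)
    have h2 := image_closure_subset_closure_image hF ⟨_, h1, rfl⟩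
    have h3 : e' x * e' s = e' (c • (x * q * s₀ * (p * s))) := by
      rw [← he', ht]
      congr 1
      rw [mul_smul_comm, smul_mul_assoc]
      simp only [mul_assoc]
    rw [h3]
    refine closure_mono ?_ h2
    rintro _ ⟨_, ⟨s', hs', rfl⟩, rfl⟩
    refine ⟨e' s', (hmem _).2 hs', ?_⟩
    change e' x * e' y * e' s' = e' (c • (x * q * s₀ * (p * (y * t) * s')))
    rw [← he', ← he']
    congr 1
    rw [hwt x, smul_mul_assoc, smul_mul_assoc, smul_mul_assoc]
    simp only [mul_assoc]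
  · intro x y _ hy s hs
    obtain ⟨x, rfl⟩ := e'.surjective x
    obtain ⟨y, rfl⟩ := e'.surjective y
    obtain ⟨s, rfl⟩ := e'.surjective s
    rw [hmem] at hs
    have hyt : t * y ≠ 0 := by
      intro h
      rcases hD _ _ h with h1 | h1
      · exact ht0 h1
      · apply hy
        rw [h1, map_zero]
    have h1 := hq (t * y) hyt s hs
    have hF : Continuous fun z : D => e' (c • (z * (s₀ * p * x))) :=
      e'.continuous.comp ((continuous_id.mul continuous_const).const_smul c)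
    have h2 := image_closure_subset_closure_image hF ⟨_, h1, rfl⟩
    have h3 : e' s * e' x = e' (c • (s * q * (s₀ * p * x))) := by
      rw [← he', ht]
      congr 1
      rw [mul_smul_comm, smul_mul_assoc]
      simp only [mul_assoc]
    rw [h3]
    refine closure_mono ?_ h2
    rintro _ ⟨_, ⟨s', hs', rfl⟩, rfl⟩
    refine ⟨e' s', (hmem _).2 hs', ?_⟩
    change e' s' * e' y * e' x = e' (c • (s' * (t * y) * q * (s₀ * p * x)))
    rw [← he', ← he']
    congr 1
    rw [hwt (s' * t * y), smul_mul_assoc]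
    simp only [mul_assoc]
  · intro hDc x y
    obtain ⟨x, rfl⟩ := e'.surjective x
    obtain ⟨y, rfl⟩ := e'.surjective y
    have h1 : (fun z : R => e' x * z * e' y) =
        (fun z : D => e' z) ∘ ((fun z : D => (x * t) * z * (t * y)) ∘ e'.symm) := by
      funext z
      obtain ⟨z, rfl⟩ := e'.surjective z
      rw [Function.comp_apply, Function.comp_apply, e'.symm_apply_apply, ← he', ← he']
      simp only [mul_assoc]
    rw [h1]
    have h2 : IsCompactOperator ((fun z : D => (x * t) * z * (t * y)) ∘ e'.symm) :=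
      (hDc (x * t) (t * y)).comp_clm (e'.symm.toContinuousLinearEquiv : R →L[ℂ] D)
    exact h2.continuous_comp e'.continuous

end Pool.Agent.Lib.MP_1185bc_an
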