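import Pool.Agent.Lib.MP_1185bc_an.Defs

/-!
# MP_1185bc_an: closed subalgebras
-/

set_option autoImplicit false

open Filter Topology

namespace Pool.Agent.Lib.MP_1185bc_an

universe u

/-- A closed subalgebra as a Banach algebra, packaged as an existence statement. -/
theorem exists_sub (A : Type u)
    [NonUnitalNormedRing A] [NormedSpace ℂ A] [IsScalarTower ℂ A A] [SMulCommClass ℂ A A]
    [CompleteSpace A] (J : Submodule ℂ A) (hJ : IsClosed (J : Set A))
    (hmul : ∀ x ∈ J, ∀ y ∈ J, x * y ∈ J) :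
    ∃ (C : Type u) (_ : NonUnitalNormedRing C) (_ : NormedSpace ℂ C) (_ : IsScalarTower ℂ C C)
      (_ : SMulCommClass ℂ C C) (_ : CompleteSpace C) (j : C →ₙₐ[ℂ] A),
      (∀ x, ‖j x‖ = ‖x‖) ∧ ∀ y, y ∈ J ↔ ∃ x, j x = y := by
  let S : NonUnitalSubalgebra ℂ A :=
    { carrier := J
      add_mem' := fun ha hb => J.add_mem ha hb
      zero_mem' := J.zero_mem
      mul_mem' := fun ha hb => hmul _ ha _ hb
      smul_mem' := fun c _ hx => J.smul_mem c hx }
  let _ : NormedSpace ℂ S := { (inferInstance : Module ℂ S) with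
    norm_smul_le := fun c x => norm_smul_le c (x : A) }
  have h1 : IsScalarTower ℂ S S := ⟨fun c x y => Subtype.ext (smul_mul_assoc c (x : A) (y : A))⟩
  have h2 : SMulCommClass ℂ S S := ⟨fun c x y =>
    Subtype.ext (mul_smul_comm c (x : A) (y : A)).symm⟩
  have h3 : CompleteSpace S := IsClosed.completeSpace_coe (s := (J : Set A)) (hs := hJ)
  refine ⟨S, inferInstance, inferInstance, h1, h2, h3,
    { toFun := fun x => (x : A)
      map_smul' := fun c x => rfl
      map_zero' := rfl
      map_add' := fun x y => rfl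
      map_mul' := fun x y => rfl }, fun x => rfl, fun y => ?_⟩
  constructor
  · intro hy
    exact ⟨⟨y, hy⟩, rfl⟩
  · rintro ⟨x, rfl⟩
    exact x.2

end Pool.Agent.Lib.MP_1185bc_an
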