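import Pool.Agent.Lib.MP_1185bc_an.StepB
import Pool.Agent.Lib.MP_1185bc_an.Sub

/-!
# MP_1185bc_an: the smallest closed ideal with closed preimage
-/

set_option autoImplicit false

open Filter Topology

namespace Pool.Agent.Lib.MP_1185bc_an

universe u

/-- The preimage of the separating space is closed. -/
theorem isClosed_preimage_sep {X Y : Type*} [NormedAddCommGroup X] [NormedSpace ℂ X]
    [NormedAddCommGroup Y] [NormedSpace ℂ Y] [CompleteSpace X] [CompleteSpace Y]
    (f : X →ₗ[ℂ] Y) : IsClosed (f ⁻¹' (sep f : Set Y)) := by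
  have hc : IsClosed (sep f : Set Y) := isClosed_sep f
  have h1 : Continuous fun x => (sep f).mkQL (f x) :=
    continuous_comp f (sep f).mkQL (fun s hs => (Submodule.Quotient.mk_eq_zero (sep f)).2 hs)
  have h2 : f ⁻¹' (sep f : Set Y) = (fun x => (sep f).mkQL (f x)) ⁻¹' {0} := by
    ext x
    rw [Set.mem_preimage, Set.mem_preimage, Set.mem_singleton_iff]
    exact (Submodule.Quotient.mk_eq_zero (sep f)).symm
  rw [h2]
  exact isClosed_singleton.preimage h1

theorem pw_map {C R : Type*} [NonUnitalNormedRing C] [NormedSpace ℂ C]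
    [NonUnitalNormedRing R] [NormedSpace ℂ R] (j : C →ₙₐ[ℂ] R) (x : C) (n : ℕ) :
    j (pw x n) = pw (j x) n := by
  induction n with
  | zero => rfl
  | succ n ih =>
    change j (pw x n * x) = pw (j x) n * j x
    rw [map_mul, ih]

/-- Step C. -/
theorem stepC (B R : Type u)
    [NonUnitalNormedRing B] [NormedSpace ℂ B] [IsScalarTower ℂ B B] [SMulCommClass ℂ B B]
    [CompleteSpace B]
    [NonUnitalNormedRing R] [NormedSpace ℂ R] [IsScalarTower ℂ R R] [SMulCommClass ℂ R R]
    [CompleteSpace R] (hR : NoZeroDiv R) (hq : ∀ x : R, QuasiNil x)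
    (θ : B →ₙₐ[ℂ] R) (hθ : Function.Surjective θ) (hs : ∃ s ∈ sep (toLin θ), s ≠ 0)
    (hL : ∀ u v : R, u ≠ 0 → v ≠ 0 → ∀ s ∈ sep (toLin θ),
      u * s ∈ closure ((fun x => u * v * x) '' (sep (toLin θ) : Set R)))
    (hRt : ∀ u v : R, u ≠ 0 → v ≠ 0 → ∀ s ∈ sep (toLin θ),
      s * u ∈ closure ((fun x => x * v * u) '' (sep (toLin θ) : Set R))) :
    ∃ (B' R' : Type u) (_ : NonUnitalNormedRing B') (_ : NormedSpace ℂ B')
      (_ : IsScalarTower ℂ B' B') (_ : SMulCommClass ℂ B' B') (_ : CompleteSpace B')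
      (_ : NonUnitalNormedRing R') (_ : NormedSpace ℂ R')
      (_ : IsScalarTower ℂ R' R') (_ : SMulCommClass ℂ R' R') (_ : CompleteSpace R')
      (θ' : B' →ₙₐ[ℂ] R'), Special R' ∧ Function.Surjective θ' ∧ Wild θ' := by
  obtain ⟨s₀, hs₀, hs₀'⟩ := hs
  obtain ⟨F, hF⟩ : ∃ F : Set (Submodule ℂ R), F = {I | ClosedIdeal I ∧ I ≠ ⊥ ∧
    IsClosed (θ ⁻¹' (I : Set R))} := ⟨_, rfl⟩
  have hsF : sep (toLin θ) ∈ F := by
    rw [hF]
    refine ⟨closedIdeal_sep θ hθ, ?_, isClosed_preimage_sep (toLin θ)⟩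
    exact (Submodule.ne_bot_iff _).2 ⟨s₀, hs₀, hs₀'⟩
  -- all ideals in `F` contain the products `x * s`
  have hbase : ∀ I ∈ F, ∀ x : R, ∀ s ∈ sep (toLin θ), x * s ∈ I := by
    intro I hI x s hs
    rw [hF] at hI
    obtain ⟨hI, hI0, -⟩ := hI
    obtain ⟨a, ha, ha0⟩ := (Submodule.ne_bot_iff I).1 hI0
    rcases eq_or_ne x 0 with hx | hx
    · rw [hx, zero_mul]
      exact Submodule.zero_mem _
    · refine (closure_minimal ?_ hI.1) (hL x a hx ha0 s hs)
      rintro _ ⟨s', _, rfl⟩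
      exact (hI.2 s' (x * a) (hI.2 x a ha).1).2
  obtain ⟨I₀, hI₀⟩ : ∃ I₀, I₀ = sInf F := ⟨_, rfl⟩
  have hImem : ∀ x, x ∈ I₀ ↔ ∀ I ∈ F, x ∈ I := by
    intro x
    rw [hI₀, Submodule.mem_sInf]
  have hIS : I₀ ≤ sep (toLin θ) := by
    rw [hI₀]
    exact sInf_le hsF
  have hIcoe : (I₀ : Set R) = ⋂ I ∈ F, (I : Set R) := by
    rw [hI₀, Submodule.coe_sInf]
  have hIideal : ClosedIdeal I₀ := by
    constructor
    · rw [hIcoe]
      refine isClosed_biInter fun I hI => ?_
      rw [hF] at hI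
      exact hI.1.1
    · intro a x hx
      rw [hImem] at hx
      constructor
      · rw [hImem]
        intro I hI
        have h1 := hx I hI
        rw [hF] at hI
        exact (hI.1.2 a x h1).1
      · rw [hImem]
        intro I hI
        have h1 := hx I hI
        rw [hF] at hI
        exact (hI.1.2 a x h1).2
  have hIpre : IsClosed (θ ⁻¹' (I₀ : Set R)) := by
    rw [hIcoe, Set.preimage_iInter₂]
    refine isClosed_biInter fun I hI => ?_
    rw [hF] at hI
    exact hI.2.2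
  obtain ⟨w, hw⟩ : ∃ w, w = s₀ * s₀ := ⟨_, rfl⟩
  have hwI : w ∈ I₀ := by
    rw [hImem, hw]
    exact fun I hI => hbase I hI s₀ s₀ hs₀
  have hw0 : w ≠ 0 := by
    rw [hw]
    intro h
    rcases hR _ _ h with h | h <;> exact hs₀' h
  obtain ⟨B₁, hB₁⟩ : ∃ B₁ : Submodule ℂ B, B₁ = I₀.comap (toLin θ) := ⟨_, rfl⟩
  have hB₁mem : ∀ x, x ∈ B₁ ↔ θ x ∈ I₀ := by
    intro x
    rw [hB₁, Submodule.mem_comap, toLin_apply]
  have hB₁c : IsClosed (B₁ : Set B) := by
    rw [hB₁, Submodule.comap_coe]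
    exact hIpre
  have hB₁mul : ∀ b : B, ∀ x ∈ B₁, b * x ∈ B₁ := by
    intro b x hx
    rw [hB₁mem] at hx ⊢
    rw [map_mul]
    exact (hIideal.2 _ _ hx).1
  -- the separating space of the restriction
  obtain ⟨g, hg⟩ : ∃ g : B₁ →ₗ[ℂ] R, ∀ x : B₁, g x = θ (x : B) :=
    ⟨(toLin θ).comp B₁.subtype, fun x => rfl⟩
  have hcs : CompleteSpace B₁ := hB₁c.completeSpace_coe
  have hgI : sep g ≤ I₀ := by
    rintro y ⟨x, -, hx'⟩
    refine hIideal.1.mem_of_tendsto hx' (Eventually.of_forall fun n => ?_)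
    rw [hg]
    exact (hB₁mem _).1 (x n).2
  have hgF : sep g ∈ F := by
    rw [hF]
    refine ⟨⟨isClosed_sep g, fun a y hy => ⟨?_, ?_⟩⟩, ?_, ?_⟩
    · obtain ⟨b, rfl⟩ := hθ a
      obtain ⟨x, hx, hx'⟩ := hy
      refine ⟨fun n => ⟨b * (x n : B), hB₁mul b _ (x n).2⟩, ?_, ?_⟩
      · rw [tendsto_subtype_rng]
        have h1 : Tendsto (fun n => ((x n : B₁) : B)) atTop (𝓝 0) := by
          have := (continuous_subtype_val.tendsto (0 : B₁)).comp hx
          exact this
        have := (tendsto_const_nhds (x := b)).mul h1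
        rw [mul_zero] at this
        exact this
      · have := (tendsto_const_nhds (x := θ b)).mul hx'
        refine this.congr fun n => ?_
        rw [hg, hg, map_mul]
    · obtain ⟨b, rfl⟩ := hθ a
      obtain ⟨x, hx, hx'⟩ := hy
      have hmem : ∀ n, (x n : B) * b ∈ B₁ := by
        intro n
        have h1 := (hB₁mem _).1 (x n).2
        rw [hB₁mem, map_mul]
        exact (hIideal.2 _ _ h1).2
      refine ⟨fun n => ⟨(x n : B) * b, hmem n⟩, ?_, ?_⟩
      · rw [tendsto_subtype_rng]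
        have h1 : Tendsto (fun n => ((x n : B₁) : B)) atTop (𝓝 0) := by
          have := (continuous_subtype_val.tendsto (0 : B₁)).comp hx
          exact this
        have := h1.mul (tendsto_const_nhds (x := b))
        rw [zero_mul] at this
        exact this
      · have := hx'.mul (tendsto_const_nhds (x := θ b))
        refine this.congr fun n => ?_
        rw [hg, hg, map_mul]
    · obtain ⟨b, hb⟩ := hθ w
      have hbB : b ∈ B₁ := by
        rw [hB₁mem, hb]
        exact hwI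
      obtain ⟨x, hx, hx'⟩ := hs₀
      have hmem : ∀ n, b * x n ∈ B₁ := by
        intro n
        rw [hB₁mem, map_mul, hb]
        exact (hIideal.2 _ _ hwI).2
      refine (Submodule.ne_bot_iff _).2 ⟨w * s₀, ⟨fun n => ⟨b * x n, hmem n⟩, ?_, ?_⟩, ?_⟩
      · rw [tendsto_subtype_rng]
        have := (tendsto_const_nhds (x := b)).mul hx
        rw [mul_zero] at this
        exact this
      · have := (tendsto_const_nhds (x := θ b)).mul hx'
        rw [hb] at this
        refine this.congr fun n => ?_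
        rw [hg, map_mul, hb, toLin_apply]
      · intro h
        rcases hR _ _ h with h | h
        · exact hw0 h
        · exact hs₀' h
    · have h1 : θ ⁻¹' (sep g : Set R) = Subtype.val '' (g ⁻¹' (sep g : Set R)) := by
        ext x
        constructor
        · intro hx
          have hx1 : x ∈ B₁ := (hB₁mem x).2 (hgI hx)
          refine ⟨⟨x, hx1⟩, ?_, rfl⟩
          change g ⟨x, hx1⟩ ∈ sep g
          rw [hg]
          exact hx
        · rintro ⟨y, hy, rfl⟩
          change θ (y : B) ∈ sep g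
          rw [← hg]
          exact hy
      rw [h1]
      exact (hB₁c.isClosedEmbedding_subtypeVal.isClosedMap) _ (isClosed_preimage_sep g)
  have hIg : I₀ ≤ sep g := by
    rw [hI₀]
    exact sInf_le hgF
  -- the new algebras
  obtain ⟨B', i1, i2, i3, i4, i5, jB, hjBn, hjB⟩ := exists_sub B B₁ hB₁c
    (fun x _ y hy => hB₁mul x y hy)
  obtain ⟨R', k1, k2, k3, k4, k5, jR, hjRn, hjR⟩ := exists_sub R I₀ hIideal.1
    (fun x _ y hy => (hIideal.2 x y hy).1)
  have hinj : ∀ x y, jR x = jR y → x = y := by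
    intro x y h
    have h1 : ‖x - y‖ = 0 := by
      rw [← hjRn, map_sub, h, sub_self, norm_zero]
    exact sub_eq_zero.1 (norm_eq_zero.1 h1)
  have hex : ∀ x : B', ∃ y : R', jR y = θ (jB x) := by
    intro x
    exact (hjR _).1 ((hB₁mem _).1 ((hjB _).2 ⟨x, rfl⟩))
  choose f hf using hex
  obtain ⟨θ', hθ'⟩ : ∃ θ' : B' →ₙₐ[ℂ] R', ∀ x, θ' x = f x :=
    ⟨{ toFun := f
       map_smul' := fun c x => hinj _ _ (by
          rw [hf, map_smul, map_smul, ← hf, map_smul]
          rfl)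
       map_zero' := hinj _ _ (by rw [hf, map_zero, map_zero, map_zero])
       map_add' := fun x y => hinj _ _ (by rw [hf, map_add, map_add, map_add, hf, hf])
       map_mul' := fun x y => hinj _ _ (by rw [hf, map_mul, map_mul, map_mul, hf, hf]) },
      fun x => rfl⟩
  have hjθ : ∀ x, jR (θ' x) = θ (jB x) := fun x => by rw [hθ', hf]
  have hne : ∀ x : R', x ≠ 0 → jR x ≠ 0 := by
    intro x hx h
    apply hx
    apply hinj
    rw [h, map_zero]
  have hR' : NoZeroDiv R' := by
    intro x y hxy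
    have h1 : jR x * jR y = 0 := by rw [← map_mul, hxy, map_zero]
    rcases hR _ _ h1 with h | h
    · left
      apply hinj
      rw [h, map_zero]
    · right
      apply hinj
      rw [h, map_zero]
  obtain ⟨w', hw'⟩ := (hjR w).1 hwI
  have hw'0 : w' ≠ 0 := by
    rintro rfl
    rw [map_zero] at hw'
    exact hw0 hw'.symm
  have hquasi : ∀ x : R', QuasiNil x := by
    intro x
    have h1 := hq (jR x)
    unfold QuasiNil at h1 ⊢
    refine h1.congr fun n => ?_
    rw [← pw_map, hjRn]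
  have hLR : ∀ u a : R', u ≠ 0 → a ≠ 0 → ∀ x : R',
      u * x ∈ closure (Set.range fun y => u * a * y) ∧
      x * u ∈ closure (Set.range fun y => y * a * u) := by
    intro u a hu ha x
    have ha2 : jR a * jR a ≠ 0 := by
      intro h
      rcases hR _ _ h with h | h <;> exact hne a ha h
    have hx : jR x ∈ sep (toLin θ) := hIS ((hjR _).2 ⟨x, rfl⟩)
    have haI : jR a ∈ I₀ := (hjR _).2 ⟨a, rfl⟩
    constructor
    · rw [Metric.mem_closure_iff]
      intro ε hε
      obtain ⟨_, ⟨s, _, rfl⟩, h2⟩ := Metric.mem_closure_iff.1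
        (hL (jR u) (jR a * jR a) (hne u hu) ha2 (jR x) hx) ε hε
      obtain ⟨y, hy⟩ := (hjR (jR a * s)).1 (hIideal.2 s _ haI).2
      refine ⟨_, ⟨y, rfl⟩, ?_⟩
      rw [dist_eq_norm] at h2 ⊢
      have e : jR u * jR a * (jR a * s) = jR u * (jR a * jR a) * s := by
        simp only [mul_assoc]
      rw [← hjRn, map_sub, map_mul, map_mul, map_mul, hy, e]
      exact h2
    · rw [Metric.mem_closure_iff]
      intro ε hε
      obtain ⟨_, ⟨s, _, rfl⟩, h2⟩ := Metric.mem_closure_iff.1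
        (hRt (jR u) (jR a * jR a) (hne u hu) ha2 (jR x) hx) ε hε
      obtain ⟨y, hy⟩ := (hjR (s * jR a)).1 (hIideal.2 s _ haI).1
      refine ⟨_, ⟨y, rfl⟩, ?_⟩
      rw [dist_eq_norm] at h2 ⊢
      have e : s * jR a * jR a * jR u = s * (jR a * jR a) * jR u := by
        simp only [mul_assoc]
      rw [← hjRn, map_sub, map_mul, map_mul, map_mul, hy, e]
      exact h2
  refine ⟨B', R', i1, i2, i3, i4, i5, k1, k2, k3, k4, k5, θ',
    ⟨⟨w', hw'0⟩, hR', hquasi, hLR, ?_⟩, ?_, ?_⟩
  · intro a b ha hb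
    refine not_compact hR' Set.univ ⟨w', Set.mem_univ _, hw'0⟩ ?_ a b ha hb (hquasi a)
    intro u v hu hv m _
    rw [Set.image_univ]
    exact (hLR u v hu hv m).1
  · intro y
    obtain ⟨b, hb⟩ := hθ (jR y)
    obtain ⟨x, rfl⟩ := (hjB b).1 ((hB₁mem b).2 (by rw [hb]; exact (hjR _).2 ⟨y, rfl⟩))
    refine ⟨x, hinj _ _ ?_⟩
    rw [hjθ, hb]
  · intro y
    obtain ⟨x, hx, hx'⟩ := hIg ((hjR _).2 ⟨y, rfl⟩)
    have hex : ∀ n, ∃ x' : B', jB x' = (x n : B) := fun n => (hjB _).1 (x n).2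
    choose x' hx'' using hex
    refine ⟨x', ?_, ?_⟩
    · rw [tendsto_zero_iff_norm_tendsto_zero] at hx ⊢
      refine hx.congr fun n => ?_
      rw [← hjBn, hx'']
      rfl
    · rw [tendsto_iff_norm_sub_tendsto_zero] at hx' ⊢
      refine hx'.congr fun n => ?_
      rw [← hjRn, map_sub, hjθ, hx'', hg]

end Pool.Agent.Lib.MP_1185bc_an
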